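import Pool.Agent.H.MP_b6d12e_lc.A
import Pool.Agent.Lib.helper21.Num

set_option autoImplicit false

/-! Low oracles and limit approximations. -/

namespace Pool.Agent.H.MP_fa5791_lc

open Pool.Agent.Lib.helper21.PR Pool.Agent.Lib.helper21 Pool.Agent.H.MP_fa2eca_lc Filter
open Encodable Denumerable Nat.Partrec Nat.Partrec.Code Pool.Agent.Lib.helper22

attribute [local irreducible] Primrec Computable

variable {α β γ : Type} [Primcodable α] [Primcodable β] [Primcodable γ] {Y : ℕ → Bool}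

def O : ℕ → Bool := fun _ => false

theorem ri_re {p : α → Prop} (h : RI O p) : RE p := by
  rw [RI] at h
  obtain ⟨W, h1, h2, h3⟩ := h
  have : Primrec (pre O) := by unfold pre O; fun_prop
  exact RE.un ((RE.re (p := fun a => ∃ n, W (a, pre O n)) (by fun_prop)).of_eq fun a =>
    ⟨fun ⟨n, h⟩ => h2 a n h, fun h => (h3 a h).exists⟩)

theorem ci_comput {f : α → β} (h : CI O f) : Computable f := by
  obtain ⟨g, a, b⟩ := ML.RE.choice (R := fun a b => f a = b) (r_pw (ri_re h.ri)) fun a => ⟨_, rfl⟩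
  exact a.of_eq fun x => (b x).symm

theorem ci_O : CI Y O := ci_const false

theorem ri_graph {g : ℕ →. ℕ} (h : TuringReducible g (Fn.orc Y)) : RI Y fun z : ℕ × ℕ => z.2 ∈ g z.1 := by
  obtain ⟨c, rfl⟩ := turingReducible_iff.1 h
  let o : List Bool → ℕ → Option ℕ := fun σ i => σ[i]?.map Bool.toNat
  have ho : Primrec fun z : List Bool × ℕ => o z.1 z.2 := by unfold o; fun_prop
  have h1 := r_graph (Fn.ev_partrec (o := fun a i => (o a i : Part ℕ)) (Computable.ofOption ho.to_comp) c)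
  have h3 : ∀ k i v, v ∈ (o (pre Y k) i : Part ℕ) ↔ i < k ∧ v = (Y i).toNat := fun k i v => by
    by_cases h : i < k <;> simp [o, pre, h]
  rw [RI]
  refine ⟨fun z => pw (z.1.2 ∈ ev (fun i => (o z.2 i : Part ℕ)) c z.1.1),
    r_comp (f := fun z : (ℕ × ℕ) × List Bool => ((z.2, z.1.1), z.1.2)) h1 (by fun_prop),
    fun a n h => (ev_eventually (l := (⊤ : Filter Unit)) (G := fun _ => Fn.orc Y) (fun n v hv =>
      .of_forall fun _ => by simp [Fn.orc, ((h3 _ _ _).1 hv).2]) c _ _ (pw_iff.1 h)).exists.elim fun _ => id,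
    fun a h => (ev_eventually (G := fun k i => (o (pre Y k) i : Part ℕ)) (fun n v hv =>
      (eventually_gt_atTop n).mono fun k hk => (h3 _ _ _).2 ⟨hk, by simpa [Fn.orc] using hv⟩)
        c _ _ h).mono fun _ => pw_iff.2⟩

theorem jump_one {p : α → Prop} (h : RI Y p) : ∃ e, ∀ a, p a ↔ J Y (Nat.pair e (encode a)) = true := by
  rw [RI] at h
  obtain ⟨W, h1, h2, h3⟩ := h
  have h4 : REPred fun z : ℕ × List Bool => ∃ a, decode z.1 = some a ∧ W (a, z.2) := RE.re (by fun_prop)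
  obtain ⟨c, hc⟩ := re_code h4
  refine ⟨encode c, fun a => ?_⟩
  rw [J_iff, Nat.unpair_pair, ofNat_encode]
  simp only [← hc, encodek, Option.some.injEq, exists_eq_left']
  exact ⟨fun h => (h3 a h).exists, fun ⟨s, h⟩ => h2 a s h⟩

def Low (Y : ℕ → Bool) : Prop :=
  ∃ g : ℕ → ℕ → Bool, CI O (fun z : ℕ × ℕ => g z.1 z.2) ∧ ∀ n, ∀ᶠ s in atTop, g n s = J Y n

theorem Low.ri (h : Low Y) {p : α → Prop} (k : RI Y p) : ∃ g : α → ℕ → Bool,
    CI O (fun z : α × ℕ => g z.1 z.2) ∧ ∀ a, ∀ᶠ s in atTop, g a s = true ↔ p a := by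
  obtain ⟨g, a, b⟩ := h
  obtain ⟨e, c⟩ := jump_one k
  exact ⟨fun a s => g (Nat.pair e (encode a)) s, by fun_prop, fun a =>
    (b (Nat.pair e (encode a))).mono fun s h => by rw [c, ← h]⟩

/-- approximated witnesses; `0` stands for no witness -/
theorem Low.wit (h : Low Y) {R : α → ℕ → Prop} (k : RI Y fun z : α × ℕ => pw (R z.1 z.2)) :
    ∃ W : α → ℕ → ℕ, CI O (fun z : α × ℕ => W z.1 z.2) ∧ ∀ a, ∃ v, (∀ᶠ s in atTop, W a s = v) ∧
      (v = 0 → ∀ w, ¬ R a w) ∧ (v ≠ 0 → R a (v - 1)) := by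
  classical
  obtain ⟨g, g1, g2⟩ := h.ri k.un
  obtain ⟨f, f1, f2⟩ := h.ri (i_exists k).un
  have e : ∀ a s, ∃ w, w = s ∨ g (a, w) s = true := fun a s => ⟨s, .inl rfl⟩
  have h1 : CI O fun z : α × ℕ => Nat.find (e z.1 z.2) :=
    CI.mk (R := fun z b => (b = z.2 ∨ g (z.1, b) z.2 = true) ∧ ∀ w < b, ¬ (w = z.2 ∨ g (z.1, w) z.2 = true))
      (by fun_prop) fun a b => (Nat.find_eq_iff (e a.1 a.2)).symm
  refine ⟨fun a s => if f a s = true then Nat.find (e a s) + 1 else 0, ci_ite (by fun_prop)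
    (ci_comp (ci_prim Primrec.succ) h1) (ci_const 0), fun a => ?_⟩
  by_cases c : ∃ w, R a w
  · refine ⟨Nat.find c + 1, ?_, by omega, fun _ => Nat.find_spec c⟩
    filter_upwards [f2 a, (eventually_all_finite (Set.finite_Iic (Nat.find c))).2 fun w _ => g2 (a, w),
      eventually_gt_atTop (Nat.find c)] with s a1 a2 a3
    rw [if_pos (a1.2 c), (Nat.find_eq_iff _).2 ⟨.inr ((a2 _ Set.self_mem_Iic).2 (Nat.find_spec c)), fun w hw =>
      not_or.2 ⟨by omega, fun k => Nat.find_min c hw ((a2 w hw.le).1 k)⟩⟩]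
  · exact ⟨0, (f2 a).mono fun s h => if_neg (mt h.1 c), fun _ => not_exists.1 c, by omega⟩

theorem co_re : ∃ W : ℕ → Prop, RE W ∧ ∀ Y, Low Y → ¬ RI Y fun n => ¬ W n := by
  obtain ⟨E, h, e⟩ : ∃ E : ℕ × ℕ → Prop, RE E ∧ ∀ z, E z ↔ 1 ∈ (ofNat Code z.1).eval z.2 :=
    ⟨_, r_comp (f := fun z : ℕ × ℕ => ((ofNat Code z.1, z.2), 1)) (r_graph eval_part) (by fun_prop),
      fun _ => pw_iff⟩
  obtain ⟨W, h1, h2⟩ : ∃ W : ℕ → Prop, RE W ∧ ∀ n, W n ↔
      ∃ t, n.unpair.2 ≤ t ∧ E (n.unpair.1, Nat.pair n.unpair.1 t) :=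
    ⟨_, RE.un (RE.re (by fun_prop)), fun _ => .rfl⟩
  refine ⟨W, h1, fun Y l k => ?_⟩
  obtain ⟨g, g1, g2⟩ := l.ri (i_exists (R := fun e s => ¬ W (Nat.pair e s)) (i_pw (k.comp
    (f := fun z : ℕ × ℕ => Nat.pair z.1 z.2) (by fun_prop)))).un
  have : CI O fun n : ℕ => (g n.unpair.1 n.unpair.2).toNat := by fun_prop
  obtain ⟨c, hc⟩ := exists_code.1 (Partrec.nat_iff.1 (ci_comput this).partrec)
  have h3 : ∀ s, W (Nat.pair (encode c) s) ↔ ∃ t, s ≤ t ∧ g (encode c) t = true := fun s => by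
    simp only [h2, e, Nat.unpair_pair, ofNat_encode, hc, PFun.coe_val, Part.mem_some_iff]
    exact exists_congr fun t => by cases g (encode c) t <;> simp
  obtain ⟨s, hs⟩ := eventually_atTop.1 (g2 (encode c))
  by_cases a : ∃ s, ¬ W (Nat.pair (encode c) s)
  · obtain ⟨u, b⟩ := a
    exact b ((h3 u).2 ⟨max s u, le_max_right _ _, (hs _ (le_max_left _ _)).2 ⟨u, b⟩⟩)
  · obtain ⟨t, b, d⟩ := (h3 s).1 (not_not.1 (not_exists.1 a s))
    exact a ((hs t b).1 d)

def Hl (l : ℕ → Bool) (s i n : ℕ) : Prop :=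
  (evaln s (ofNat Code i.unpair.1) (encode (i.unpair.2, pre l n))).isSome = true

def En (l : ℕ → Bool) (s x : ℕ) : Prop := x < s ∧ (∀ y < s, y.unpair.1 = x.unpair.1 → l y = false) ∧
  (evaln s (ofNat Code x.unpair.1) x).isSome = true ∧
    ∀ i ≤ x.unpair.1, (∃ n ≤ s, Hl l s i n) → ∃ n ≤ x, Hl l s i n

noncomputable def st (s : ℕ) : List Bool := Nat.rec [] (fun s l => (List.range (s + 1)).map fun x =>
  l.getD x false || cd (En (l.getD · false) s x)) s

noncomputable def As (s x : ℕ) : Bool := (st s).getD x false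

theorem As_p : Primrec fun z : ℕ × ℕ => As z.1 z.2 := by
  have : Primrec st := by unfold st En Hl pre; fun_prop
  unfold As; fun_prop

theorem As_succ (s x : ℕ) : As (s + 1) x = true ↔ As s x = true ∨ En (As s) s x := by
  have : ∀ s x, As s x = true → x < s := fun s x h => by
    by_contra c
    cases s <;> simp_all [As, st]
  by_cases c : x < s + 1
  · change ((List.map _ _).getD _ _ = true) ↔ _
    simp only [List.getD_eq_getElem?_getD, List.getElem?_map, List.getElem?_range c, Option.map_some,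
      Option.getD_some, Bool.or_eq_true, cd_true]
    rfl
  · exact ⟨fun h => absurd (this _ _ h) c, fun h => h.elim (fun h => by have := this _ _ h; omega)
      fun h => by have := h.1; omega⟩

theorem As_mono {s t x : ℕ} (h : s ≤ t) (k : As s x = true) : As t x = true := by
  induction h with
  | refl => exact k
  | step _ ih => exact (As_succ _ _).2 (.inl ih)

noncomputable def AA (x : ℕ) : Bool := cd (∃ s, As s x = true)

theorem AA_ev (x : ℕ) : ∀ᶠ s in atTop, As s x = AA x := by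
  by_cases h : ∃ s, As s x = true
  · exact h.elim fun s k => (eventually_ge_atTop s).mono fun t a => (As_mono a k).trans (cd_true.2 h).symm
  · exact .of_forall fun s => Bool.eq_iff_iff.2 ⟨fun k => absurd ⟨s, k⟩ h, fun k => absurd (cd_true.1 k) h⟩

theorem col (e : ℕ) : ∀ᶠ s in atTop, ∀ x, x.unpair.1 = e → ¬ En (As s) s x := by
  by_cases h : ∃ s x, x.unpair.1 = e ∧ En (As s) s x
  · obtain ⟨s, x, a, b⟩ := h
    exact (eventually_gt_atTop s).mono fun t c y d k => by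
      have := k.2.1 x (b.1.trans c) (a.trans d.symm)
      simp [As_mono c ((As_succ _ _).2 (.inr b))] at this
  · exact .of_forall fun s x a b => h ⟨s, x, a, b⟩

theorem lowA (i : ℕ) : ∃ b, ∀ᶠ s in atTop, ((∃ n ≤ s, Hl (As s) s i n) ↔ J AA i = true) ∧
    ((∃ n ≤ s, Hl (As s) s i n) → ∃ n ≤ b, Hl (As s) s i n) := by
  classical
  have ev : ∀ n, ∀ᶠ s in atTop, pre (As s) n = pre AA n := fun n =>
    ((eventually_all_finite (Set.finite_Iio n)).2 fun x _ => AA_ev x).mono fun s h => ML.pre_congr h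
  obtain ⟨S, hS⟩ := eventually_atTop.1 ((eventually_all_finite (Set.finite_Iio i)).2 fun e _ => col e)
  by_cases h : ∃ n, ∃ s ≥ S, n ≤ s ∧ Hl (As s) s i n
  · obtain ⟨s, h1, h2, h3⟩ := Nat.find_spec h
    have h4 : ∀ t ≥ s, Hl (As t) t i (Nat.find h) := fun t ht => by
      induction ht with
      | refl => exact h3
      | @step t ht ih =>
        have : pre (As (t + 1)) (Nat.find h) = pre (As t) (Nat.find h) := ML.pre_congr fun x hx => by
          rw [Bool.eq_iff_iff, As_succ]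
          refine ⟨fun k => k.resolve_right fun k => ?_, .inl⟩
          by_cases c : x.unpair.1 < i
          · exact hS t (h1.trans ht) _ c x rfl k
          obtain ⟨n, a, b⟩ := k.2.2.2 i (by omega) ⟨_, h2.trans ht, ih⟩
          exact Nat.find_min h (a.trans_lt hx) ⟨t, h1.trans ht, a.trans k.1.le, b⟩
        obtain ⟨v, hv⟩ := Option.isSome_iff_exists.1 ih
        exact Option.isSome_iff_exists.2 ⟨v, this ▸ evaln_mono (Nat.le_succ t) hv⟩
    refine ⟨Nat.find h, ((ev (Nat.find h)).and (eventually_ge_atTop s)).mono fun t ⟨a, b⟩ =>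
      ⟨⟨fun _ => J_iff.2 ⟨Nat.find h, ?_⟩, fun _ => ⟨_, h2.trans b, h4 t b⟩⟩, fun _ => ⟨_, le_rfl, h4 t b⟩⟩⟩
    obtain ⟨v, hv⟩ := Option.isSome_iff_exists.1 (h4 t b)
    exact Part.dom_iff_mem.2 ⟨v, a ▸ evaln_sound hv⟩
  refine ⟨0, (eventually_ge_atTop S).mono fun s a => ⟨⟨fun ⟨n, b⟩ => absurd ⟨n, s, a, b⟩ h, fun k => ?_⟩,
    fun ⟨n, b⟩ => absurd ⟨n, s, a, b⟩ h⟩⟩
  obtain ⟨n, k⟩ := J_iff.1 k
  obtain ⟨v, k⟩ := Part.dom_iff_mem.1 k
  obtain ⟨u, k⟩ := evaln_complete.1 k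
  obtain ⟨t, b, c, d, e⟩ := ((ev n).and ((eventually_ge_atTop S).and
    ((eventually_ge_atTop n).and (eventually_ge_atTop u)))).exists
  exact absurd ⟨n, t, c, d, Option.isSome_iff_exists.2 ⟨v, b ▸ evaln_mono e k⟩⟩ h

theorem low_simple : ∃ A : ℕ → Bool, RE (A · = true) ∧ ¬ CI O A ∧ Low A := by
  have := As_p
  refine ⟨AA, RE.un ((RE.re (p := fun x => ∃ s, As s x = true) (by fun_prop)).of_eq fun _ => cd_true.symm),
    fun h => ?_, fun i s => cd (∃ n ≤ s, Hl (As s) s i n), ci_prim (by unfold Hl pre; fun_prop), fun i =>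
      (lowA i).elim fun _ h => h.mono fun s k => by rw [Bool.eq_iff_iff, cd_true, k.1]⟩
  obtain ⟨c, hc⟩ := re_code (r_pw (ri_re (RI.un (p := fun x => AA x = false) (by fun_prop)))).re
  have h1 : ∀ s x, x.unpair.1 = encode c → As s x = false := fun s x e => by
    induction s with
    | zero => rfl
    | succ s ih =>
      refine Bool.eq_false_iff.2 fun k => ((As_succ _ _).1 k).elim (by simp [ih]) fun a => ?_
      obtain ⟨v, hv⟩ := Option.isSome_iff_exists.1 a.2.2.1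
      rw [e, ofNat_encode] at hv
      have := (hc x).2 (Part.dom_iff_mem.2 ⟨v, evaln_sound hv⟩)
      simp [AA, cd_true.2 (⟨_, k⟩ : ∃ s, As s x = true)] at this
  choose b hb using lowA
  let x := Nat.pair (encode c) (∑ i ∈ Finset.range (encode c + 1), b i)
  have e : x.unpair.1 = encode c := by simp [x]
  obtain ⟨v, k⟩ := Part.dom_iff_mem.1 ((hc x).1 (Bool.eq_false_iff.2 fun k => by
    obtain ⟨s, k⟩ := cd_true.1 k
    simp [h1 s x e] at k))
  obtain ⟨u, k⟩ := evaln_complete.1 k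
  obtain ⟨s, a1, a2, a3⟩ := (((eventually_all_finite (Set.finite_Iic (encode c))).2 fun i _ => hb i).and
    ((eventually_gt_atTop x).and (eventually_ge_atTop u))).exists
  have := (As_succ s x).2 (.inr ⟨a2, fun y _ d => h1 s y (d.trans e), Option.isSome_iff_exists.2
    ⟨v, by rw [e, ofNat_encode]; exact evaln_mono a3 k⟩, fun i hi d => ((a1 i (e ▸ hi)).2 d).imp fun n f =>
      ⟨f.1.trans ((Finset.single_le_sum (fun _ _ => Nat.zero_le _) (Finset.mem_range.2
        (by omega))).trans (Nat.right_le_pair _ _)), f.2⟩⟩)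
  simp [h1 _ x e] at this

end Pool.Agent.H.MP_fa5791_lc
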