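import Pool.Agent.H.MP_fa5791_lc.A

set_option autoImplicit false

/-! Computable metric spaces, computable maps, computable families of reals. -/

namespace Pool.Agent.H.MP_fa5791_lc

open Pool.Agent.Lib.helper21.PR Pool.Agent.Lib.helper21 Filter Encodable

attribute [local irreducible] Primrec Computable

section
variable {X Z : Type} [MetricSpace X] [MetricSpace Z]

/-- `c` is a dense sequence whose mutual distances are uniformly computable -/
def Pres (c : ℕ → X) : Prop := DenseRange c ∧ ∃ q : ℕ × ℕ × ℕ → ℕ, Computable q ∧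
  ∀ i j k, |dist (c i) (c j) - q (i, j, k) / 2 ^ k| ≤ 1 / 2 ^ k

/-- `p` is a fast Cauchy name of `x` -/
def Name (c : ℕ → X) (x : X) (p : ℕ → ℕ) : Prop := ∀ k, dist (c (p k)) x ≤ 1 / 2 ^ k

/-- `Φ` reads finite parts of any name of `x` and gives every entry of a name of `f x` -/
def Realizes (Φ : ℕ →. ℕ) (c : ℕ → X) (c' : ℕ → Z) (f : X → Z) : Prop := ∀ x p, Name c x p → ∀ k : ℕ,
  (∃ n, (Φ (encode ((List.range n).map p, k))).Dom) ∧
    ∀ n, ∀ j ∈ Φ (encode ((List.range n).map p, k)), dist (c' j) (f x) ≤ 1 / 2 ^ k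

/-- `f` is computable relative to the oracle `A` -/
def CompIn (A : ℕ → Bool) (c : ℕ → X) (c' : ℕ → Z) (f : X → Z) : Prop :=
  ∃ Φ : ℕ →. ℕ, TuringReducible Φ (Fn.orc A) ∧ Realizes Φ c c' f

def Out (Y : ℕ → Bool) (e a u k j : ℕ) : Prop := J Y (Nat.pair e (encode (a, u, k, j))) = true

theorem out_ri (Y : ℕ → Bool) : RI Y fun z : ℕ × ℕ × ℕ × ℕ × ℕ => Out Y z.1 z.2.1 z.2.2.1 z.2.2.2.1 z.2.2.2.2 :=
  (J_ri Y).comp (by fun_prop)

theorem CompIn.out {Y : ℕ → Bool} {c : ℕ → X} {c' : ℕ → Z} {f : X → Z} (h : CompIn Y c c' f)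
    (hc : DenseRange c) : ∃ e, (∀ a k, ∃ u j, Out Y e a u k j) ∧
      ∀ a u k j, Out Y e a u k j → ∀ x, dist (c a) x ≤ 1 / 2 ^ u → dist (c' j) (f x) ≤ 1 / 2 ^ k := by
  obtain ⟨Φ, h1, h2⟩ := h
  obtain ⟨e, he⟩ := jump_one ((ri_graph h1).comp (f := fun z : ℕ × ℕ × ℕ × ℕ =>
    (encode (List.replicate z.2.1 z.1, z.2.2.1), z.2.2.2)) (by fun_prop))
  refine ⟨e, fun a k => ?_, fun a u k j h x hx => ?_⟩
  · obtain ⟨n, h⟩ := (h2 (c a) (fun _ => a) (fun _ => by simp) k).1
    exact ⟨n, _, (he (a, n, k, _)).1 (by simpa using Part.get_mem h)⟩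
  · choose p hp using fun n : ℕ => hc.exists_dist_lt x (ε := 1 / 2 ^ n) (by positivity)
    refine (h2 x (fun n => if n < u then a else p n) (fun n => ?_) k).2 u j ?_
    · beta_reduce
      split_ifs with b
      · exact hx.trans (by gcongr; norm_num)
      · exact (dist_comm _ _).trans_le (hp n).le
    · rw [List.map_congr_left (g := fun _ => a) fun n hn => if_pos (List.mem_range.1 hn)]
      simpa using (he (a, u, k, j)).2 h

end

variable {α β γ : Type} [Primcodable α] [Primcodable β] [Primcodable γ] {Y : ℕ → Bool}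

@[fun_prop, irreducible] def CR (f : α → ℝ) : Prop := ∃ (q : α × ℕ → ℕ) (E : α → ℕ), CI O q ∧ CI O E ∧
  ∀ a k, |f a * 2 ^ k - q (a, k)| ≤ E a

section
variable {f g : α → ℝ} {m n : α → ℕ}

@[fun_prop] theorem cr_comp {f : β → ℝ} {g : α → β} (hf : CR f) (hg : CI O g) : CR fun a => f (g a) := by
  rw [CR] at hf ⊢
  obtain ⟨q, E, a, b, c⟩ := hf
  exact ⟨fun z => q (g z.1, z.2), fun a => E (g a), by fun_prop, by fun_prop, fun a => c _⟩

theorem cr_op {φ : ℝ → ℝ → ℝ} {ψ : ℕ → ℕ → ℕ} (hψ : Primrec fun z : ℕ × ℕ => ψ z.1 z.2)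
    (h : ∀ (x y t : ℝ) (a b : ℕ), 0 < t → |φ x y * t - ψ a b| ≤ |x * t - a| + |y * t - b|) (hf : CR f)
    (hg : CR g) : CR fun a => φ (f a) (g a) := by
  rw [CR] at hf hg ⊢
  obtain ⟨q, E, a, b, c⟩ := hf
  obtain ⟨q', E', a', b', c'⟩ := hg
  exact ⟨fun z => ψ (q z) (q' z), fun a => E a + E' a, by fun_prop, by fun_prop, fun a k =>
    (h _ _ _ _ _ (by positivity)).trans (by push_cast; exact add_le_add (c a k) (c' a k))⟩

@[fun_prop] theorem cr_add (hf : CR f) (hg : CR g) : CR fun a => f a + g a :=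
  cr_op (φ := (· + ·)) (ψ := (· + ·)) (by fun_prop) (fun x y t a b _ => by
    push_cast; exact (congrArg _ (by ring)).trans_le (abs_add_le _ _)) hf hg

@[fun_prop] theorem cr_min (hf : CR f) (hg : CR g) : CR fun a => min (f a) (g a) :=
  cr_op (φ := min) (ψ := min) (by fun_prop) (fun x y t a b h => by
    rw [min_mul_of_nonneg _ _ h.le, Nat.cast_min]
    exact (abs_min_sub_min_le_max _ _ _ _).trans (max_le_add_of_nonneg (abs_nonneg _) (abs_nonneg _))) hf hg

@[fun_prop] theorem cr_max (hf : CR f) (hg : CR g) : CR fun a => max (f a) (g a) :=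
  cr_op (φ := max) (ψ := max) (by fun_prop) (fun x y t a b h => by
    rw [max_mul_of_nonneg _ _ h.le, Nat.cast_max]
    exact (abs_max_sub_max_le_max _ _ _ _).trans (max_le_add_of_nonneg (abs_nonneg _) (abs_nonneg _))) hf hg

def ts (x y : ℝ) : ℝ := max (x - y) 0

@[fun_prop] theorem cr_ts (hf : CR f) (hg : CR g) : CR fun a => ts (f a) (g a) :=
  cr_op (φ := ts) (ψ := (· - ·)) (by fun_prop) (fun x y t a b h => by
    have : ((a - b : ℕ) : ℝ) = max ((a : ℝ) - b) 0 := by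
      rcases le_total a b with c | c
      · rw [Nat.sub_eq_zero_of_le c, max_eq_right (sub_nonpos.2 (by exact_mod_cast c))]; simp
      · rw [Nat.cast_sub c, max_eq_left (sub_nonneg.2 (by exact_mod_cast c))]
    rw [ts, max_mul_of_nonneg _ _ h.le, zero_mul, this]
    exact (abs_max_sub_max_le_abs _ _ _).trans ((congrArg _ (by ring)).trans_le (abs_sub _ _))) hf hg

@[fun_prop] theorem cr_abs (hf : CR f) (hg : CR g) : CR fun a => |f a - g a| := by
  have : CR fun a => max (ts (f a) (g a)) (ts (g a) (f a)) := by fun_prop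
  have e : (fun a => |f a - g a|) = fun a => max (ts (f a) (g a)) (ts (g a) (f a)) := funext fun a => by
    simp only [ts]; grind
  exact e ▸ this

@[fun_prop] theorem cr_mul (hm : CI O m) (hf : CR f) : CR fun a => (m a : ℝ) * f a := by
  rw [CR] at hf ⊢
  obtain ⟨q, E, a, b, c⟩ := hf
  refine ⟨fun z => m z.1 * q z, fun a => m a * E a, by fun_prop, by fun_prop, fun a k => ?_⟩
  push_cast
  rw [mul_assoc, ← mul_sub, abs_mul, Nat.abs_cast]
  gcongr; exact c a k

noncomputable def dy (m n : ℕ) : ℝ := m / 2 ^ n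

@[fun_prop] theorem cr_dy (hm : CI O m) (hn : CI O n) : CR fun a => dy (m a) (n a) := by
  rw [CR]
  refine ⟨fun z => m z.1 * 2 ^ z.2 / 2 ^ n z.1, fun _ => 1, by fun_prop, by fun_prop, fun a k => ?_⟩
  have e : dy (m a) (n a) * 2 ^ k = ((m a * 2 ^ k : ℕ) : ℝ) / (2 ^ n a : ℕ) := by simp [dy]; ring
  beta_reduce
  rw [e, ← Nat.floor_div_eq_div (K := ℝ), Nat.cast_one]
  exact Nat.abs_sub_floor_le (by positivity)

@[fun_prop] theorem i_lt (hf : CR f) (hg : CR g) : RI Y fun a => pw (f a < g a) := by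
  rw [CR] at hf hg
  obtain ⟨q, E, a, b, c⟩ := hf
  obtain ⟨q', E', a', b', c'⟩ := hg
  refine RI.trans (i_pw ((RI.un (p := fun a => ∃ k, q (a, k) + E a + E' a < q' (a, k)) (by fun_prop)).of_eq
    fun a => ⟨fun ⟨k, h⟩ => ?_, fun h => ?_⟩)) ci_O
  · have := abs_le.1 (c a k)
    have := abs_le.1 (c' a k)
    have : (q (a, k) : ℝ) + E a + E' a < q' (a, k) := by exact_mod_cast h
    exact lt_of_mul_lt_mul_right (a := 2 ^ k) (by linarith) (by positivity)
  · obtain ⟨k, hk⟩ := pow_unbounded_of_one_lt ((2 * E a + 2 * E' a) / (g a - f a)) one_lt_two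
    rw [div_lt_iff₀ (sub_pos.2 h)] at hk
    have := abs_le.1 (c a k)
    have := abs_le.1 (c' a k)
    exact ⟨k, by exact_mod_cast (by linarith : (q (a, k) : ℝ) + E a + E' a < q' (a, k))⟩

end

theorem pres_iff {X : Type} [MetricSpace X] {c : ℕ → X} :
    Pres c ↔ DenseRange c ∧ CR fun z : ℕ × ℕ => dist (c z.1) (c z.2) := by
  rw [CR]
  refine and_congr_right fun _ => ⟨fun ⟨q, a, b⟩ => ⟨fun z => q (z.1.1, z.1.2, z.2), fun _ => 1,
    ci_comp (Computable.ci a) (by fun_prop), by fun_prop, fun z k => ?_⟩, fun ⟨q, E, a, b, h⟩ =>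
    ⟨fun z => (q ((z.1, z.2.1), z.2.2 + E (z.1, z.2.1) + 1) + 2 ^ E (z.1, z.2.1)) / 2 ^ (E (z.1, z.2.1) + 1),
      ci_comput (by fun_prop), fun i j k => ?_⟩⟩
  · have := b z.1 z.2 k
    rw [le_div_iff₀ (by positivity), ← abs_of_pos (a := (2 : ℝ) ^ k) (by positivity), ← abs_mul, sub_mul,
      abs_of_pos (a := (2 : ℝ) ^ k) (by positivity), div_mul_cancel₀ _ (by positivity)] at this
    simpa using this
  · have h1 := abs_le.1 (h (i, j) (k + E (i, j) + 1))
    dsimp only at h1 ⊢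
    generalize q ((i, j), k + E (i, j) + 1) = v at h1 ⊢
    generalize E (i, j) = w at h1 ⊢
    have h2 : (w : ℝ) < 2 ^ w := by exact_mod_cast Nat.lt_two_pow_self
    have h3 := Nat.div_add_mod (v + 2 ^ w) (2 ^ (w + 1))
    have h4 := Nat.mod_lt (v + 2 ^ w) (Nat.two_pow_pos (w + 1))
    generalize (v + 2 ^ w) / 2 ^ (w + 1) = y at h3 ⊢
    generalize (v + 2 ^ w) % 2 ^ (w + 1) = r at h3 h4
    have h5 : (2 : ℝ) ^ (w + 1) * y + r = v + 2 ^ w := by exact_mod_cast h3
    have h6 : (r : ℝ) < 2 ^ (w + 1) := by exact_mod_cast h4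
    have h7 : (0 : ℝ) ≤ r := by positivity
    have h8 : (0 : ℝ) < 2 ^ w := by positivity
    rw [le_div_iff₀ (by positivity), ← abs_of_pos (a := (2 : ℝ) ^ k) (by positivity), ← abs_mul, sub_mul,
      abs_of_pos (a := (2 : ℝ) ^ k) (by positivity), div_mul_cancel₀ _ (by positivity), abs_le]
    simp only [pow_succ, pow_add, ← mul_assoc] at h1 h5 h6
    generalize dist (c i) (c j) * 2 ^ k = D at h1 ⊢
    constructor <;> refine le_of_mul_le_mul_right ?_ h8 <;> linarith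

@[fun_prop] theorem ci_mem {f : α → β} {l : α → List β} (hf : CI Y f) (hl : CI Y l) :
    CI Y fun a => cd (f a ∈ l a) :=
  ci_comp (f := fun z : β × List β => cd (z.1 ∈ z.2)) (ci_prim (by fun_prop)) (ci_pair hf hl)

/-- recursion with changing parameters -/
theorem ci_tree {F : ℕ → β → γ} {g : β → γ} {h : ℕ → β → List γ → γ} {dep : ℕ → β → List β}
    (hg : CI Y g) (hh : CI Y fun z : ℕ × β × List γ => h z.1 z.2.1 z.2.2)
    (hd : CI Y fun z : ℕ × β => dep z.1 z.2) (h0 : ∀ b, F 0 b = g b)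
    (h1 : ∀ t b, F (t + 1) b = h t b ((dep t b).map (F t))) : CI Y fun z : ℕ × β => F z.1 z.2 := by
  let P : List ((ℕ × β) × γ) → (ℕ × β) × γ → Prop := fun L e => e.1.1 = 0 ∧ e.2 = g e.1.2 ∨
    ∃ vs : List γ, e.1.1 ≠ 0 ∧ e.2 = h (e.1.1 - 1) e.1.2 vs ∧ vs.length = (dep (e.1.1 - 1) e.1.2).length ∧
      ∀ i < vs.length, ((e.1.1 - 1, (dep (e.1.1 - 1) e.1.2).getD i e.1.2), vs.getD i e.2) ∈ L
  refine CI.mk (R := fun z v => ∃ L, (z, v) ∈ L ∧ ∀ i < L.length, P L (L.getD i (z, v)))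
    (by unfold P; fun_prop) fun z v => ⟨fun ⟨L, a, b⟩ => ?_, fun e => ?_⟩
  · have b : ∀ e ∈ L, P L e := fun e he => by
      obtain ⟨i, hi, rfl⟩ := List.getElem_of_mem he
      simpa [hi] using b i hi
    have : ∀ t b v, ((t, b), v) ∈ L → F t b = v := fun t => by
      induction t with
      | zero => exact fun c v k => (b _ k).elim (fun k => (h0 c).trans k.2.symm) fun ⟨_, k, _⟩ => (k rfl).elim
      | succ t ih =>
        refine fun c v k => (b _ k).elim (by simp) fun ⟨vs, _, k1, k2, k3⟩ => (h1 t c).trans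
          ((congrArg _ (List.ext_getElem (by simpa using k2.symm) fun i c1 c2 => ?_)).trans k1.symm)
        simpa [c2, (by simpa using c1 : i < (dep t c).length)] using ih _ _ (k3 i c2)
    exact this _ _ _ a
  have mono : ∀ L L' e, L ⊆ L' → P L e → P L' e := fun L L' e a b => b.imp_right fun ⟨vs, b, c, d, f⟩ =>
    ⟨vs, b, c, d, fun i hi => a (f i hi)⟩
  have : ∀ t b, ∃ L, ((t, b), F t b) ∈ L ∧ ∀ e ∈ L, P L e := fun t => by
    induction t with
    | zero => exact fun b => ⟨[_], .head _, fun e he => (List.mem_singleton.1 he).symm ▸ .inl ⟨rfl, h0 b⟩⟩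
    | succ t ih =>
      choose L a b using ih
      refine fun c => ⟨((t + 1, c), F (t + 1) c) :: (dep t c).flatMap L, .head _, fun e he =>
        (List.mem_cons.1 he).elim (fun k => k.symm ▸ .inr ⟨_, by simp, h1 t c, by simp, fun i hi => .tail _ ?_⟩)
        fun k => (List.mem_flatMap.1 k).elim fun d k => mono _ _ _ (fun x hx => .tail _
          (List.mem_flatMap.2 ⟨d, k.1, hx⟩)) (b d e k.2)⟩
      rw [List.length_map] at hi
      exact List.mem_flatMap.2 ⟨_, List.getElem_mem hi, by simpa [hi] using a _⟩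
  obtain ⟨L, a, b⟩ := this z.1 z.2
  exact ⟨L, e ▸ a, fun i hi => b _ (by simp [hi])⟩

end Pool.Agent.H.MP_fa5791_lc
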