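import Pool.Agent.H.MP_fa5791_lc.B

set_option autoImplicit false

/-! Changing a metric by bumps and shortcuts. -/

namespace Pool.Agent.H.MP_fa5791_lc

open Filter Topology

variable {X : Type} [MetricSpace X]

structure PM (d : X → X → ℝ) : Prop where
  self : ∀ x, d x x = 0
  symm : ∀ x y, d x y = d y x
  tri : ∀ x y z, d x z ≤ d x y + d y z

theorem PM.pos {d : X → X → ℝ} (h : PM d) (x y : X) : 0 ≤ d x y := by
  linarith [h.tri x y x, h.self x, h.symm x y]

theorem pm_dist : PM (X := X) dist := ⟨dist_self, dist_comm, dist_triangle⟩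

def Syn (X : Type) := X

theorem fin [CompleteSpace X] {d : ℕ → X → X → ℝ} (h1 : ∀ t, PM (d t))
    (h2 : ∀ t, ∃ L > 0, ∀ x y, d t x y ≤ L * dist x y)
    (h3 : ∀ ε > 0, ∃ T, ∀ t ≥ T, ∀ x y, |d t x y - d T x y| ≤ ε)
    (h4 : ∀ ε > 0, ∃ η > 0, ∃ T, ∀ t ≥ T, ∀ x y, ε ≤ dist x y → η ≤ d t x y) :
    ∃ (Y : Type) (_ : MetricSpace Y), CompleteSpace Y ∧ ∃ h : X ≃ₜ Y,
      ∀ x y, Tendsto (d · x y) atTop (𝓝 (dist (h x) (h y))) := by
  choose ρ hρ using fun x y => cauchySeq_tendsto_of_complete (u := (d · x y))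
    (Metric.cauchySeq_iff'.2 fun ε hε => (h3 (ε / 2) (half_pos hε)).imp fun T h t ht =>
      (h t ht x y).trans_lt (half_lt_self hε))
  have a1 : ∀ ε > 0, ∃ η > 0, ∀ x y, ρ x y < η → dist x y < ε := fun ε hε => by
    obtain ⟨η, a, T, b⟩ := h4 ε hε
    exact ⟨η, a, fun x y c => lt_of_not_ge fun e => c.not_ge
      (ge_of_tendsto (hρ x y) ((eventually_ge_atTop T).mono fun t f => b t f x y e))⟩
  have a2 : ∀ ε > 0, ∃ η > 0, ∀ x y, dist x y < η → ρ x y < ε := fun ε hε => by
    obtain ⟨T, b⟩ := h3 (ε / 2) (half_pos hε)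
    obtain ⟨L, c, e⟩ := h2 T
    refine ⟨ε / 2 / L, by positivity, fun x y f => ?_⟩
    have := le_of_tendsto (hρ x y) ((eventually_ge_atTop T).mono fun t f =>
      sub_le_iff_le_add.1 (abs_le.1 (b t f x y)).2)
    have := e x y
    rw [lt_div_iff₀ c] at f
    linarith
  let m : MetricSpace (Syn X) :=
    { dist := ρ
      dist_self := fun x => tendsto_nhds_unique (hρ x x) (by simp [(h1 _).self])
      dist_comm := fun x y => tendsto_nhds_unique (hρ x y) (by simpa [(h1 _).symm x y] using hρ y x)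
      dist_triangle := fun x y z => le_of_tendsto_of_tendsto' (hρ x z) ((hρ x y).add (hρ y z))
        fun t => (h1 t).tri x y z
      eq_of_dist_eq_zero := fun {x y} h => eq_of_forall_dist_le (γ := X) fun ε hε =>
        (a1 ε hε).elim fun η k => (k.2 x y (h.trans_lt k.1)).le }
  let e : X ≃ᵤ Syn X :=
    { Equiv.refl X with
      uniformContinuous_toFun := Metric.uniformContinuous_iff.2 fun ε hε =>
        (a2 ε hε).imp fun η k => ⟨k.1, fun {x y} => k.2 x y⟩
      uniformContinuous_invFun := Metric.uniformContinuous_iff.2 fun ε hε =>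
        (a1 ε hε).imp fun η k => ⟨k.1, fun {x y} => k.2 x y⟩ }
  exact ⟨Syn X, m, (completeSpace_congr e.isUniformEmbedding).1 ‹_›, e.toHomeomorph, hρ⟩

def worm (E : X → X → ℝ) (c b : X) (l : ℝ) (x y : X) : ℝ :=
  min (E x y) (min (E x c + l + E b y) (E x b + l + E c y))

theorem PM.bump {d : X → X → ℝ} (h : PM d) (B : X → ℝ) : PM fun x y => d x y + |B x - B y| :=
  ⟨fun x => by simp [h.self], fun x y => by rw [h.symm, abs_sub_comm],
    fun x y z => by linarith [h.tri x y z, abs_sub_le (B x) (B y) (B z)]⟩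

theorem PM.worm {E : X → X → ℝ} (h : PM E) (c b : X) {l : ℝ} (k : 0 ≤ l) : PM (worm E c b l) := by
  have := h.pos
  refine ⟨fun x => ?_, fun x y => ?_, fun x y z => ?_⟩ <;> unfold MP_fa5791_lc.worm
  · rw [h.self, min_eq_left (le_min (by linarith [this x c, this b x]) (by linarith [this x b, this c x]))]
  · rw [h.symm x y, h.symm x c, h.symm b y, h.symm x b, h.symm c y, min_comm (E c x + l + E y b)]
    congr 2 <;> ring
  · have := min_le_left (E x z) (min (E x c + l + E b z) (E x b + l + E c z))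
    have := (min_le_right (E x z) _).trans (min_le_left (E x c + l + E b z) (E x b + l + E c z))
    have := (min_le_right (E x z) _).trans (min_le_right (E x c + l + E b z) (E x b + l + E c z))
    rcases min_choice (E x y) (min (E x c + l + E b y) (E x b + l + E c y)) with a | a <;>
    rcases min_choice (E x c + l + E b y) (E x b + l + E c y) with a' | a' <;>
    rcases min_choice (E y z) (min (E y c + l + E b z) (E y b + l + E c z)) with d | d <;>
    rcases min_choice (E y c + l + E b z) (E y b + l + E c z) with d' | d' <;>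
    linarith [h.tri x y z, h.tri x y c, h.tri x y b, h.tri b y z, h.tri c y z, h.tri x c z, h.tri x b z,
      h.pos b y, h.pos y c, h.pos y b, h.pos c y]

structure Mv (X : Type) where
  c : X
  b : X
  H : ℝ
  l : ℝ
  G : ℕ

def Mv.B (m : Mv X) (x : X) : ℝ := ts m.H (m.G * dist x m.c)

def DD (m : ℕ → Mv X) : ℕ → X → X → ℝ
  | 0 => dist
  | t + 1 => worm (fun x y => DD m t x y + |(m t).B x - (m t).B y|) (m t).c (m t).b (m t).l

variable {m : ℕ → Mv X}

theorem DD_pm (h : ∀ t, 0 < (m t).l) : ∀ t, PM (DD m t)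
  | 0 => pm_dist
  | t + 1 => ((DD_pm h t).bump _).worm _ _ (h t).le

theorem DD_le (t : ℕ) (x y : X) : DD m (t + 1) x y ≤ DD m t x y + |(m t).B x - (m t).B y| := min_le_left _ _

theorem DD_cb (h : ∀ t, 0 < (m t).l) (t : ℕ) : DD m (t + 1) (m t).c (m t).b ≤ (m t).l :=
  (min_le_right _ _).trans ((min_le_left _ _).trans_eq (by simp [(DD_pm h t).self]))

theorem B_le (m : Mv X) (h : 0 ≤ m.H) (x : X) : 0 ≤ m.B x ∧ m.B x ≤ m.H :=
  ⟨le_max_right _ _, max_le (sub_le_self _ (by positivity)) h⟩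

theorem DD_lip : ∀ t x y, DD m t x y ≤ (1 + ∑ u ∈ Finset.range t, (m u).G : ℕ) * dist x y
  | 0, x, y => by simp [DD]
  | t + 1, x, y => by
    have h1 : |(m t).B x - (m t).B y| ≤ (m t).G * dist x y := (abs_max_sub_max_le_abs _ _ _).trans (by
      rw [sub_sub_sub_cancel_left, ← mul_sub, abs_mul, Nat.abs_cast, abs_sub_comm]
      gcongr; exact abs_dist_sub_le _ _ _)
    have := DD_lip t x y
    rw [Finset.sum_range_succ]
    push_cast at this ⊢
    linarith [DD_le (m := m) t x y]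

theorem DD_low (h : ∀ t, 0 < (m t).l) (ε : ℝ) (hε : 0 < ε) :
    ∀ t, ∃ η > 0, ∀ x y, ε ≤ dist x y → η ≤ DD m t x y
  | 0 => ⟨ε, hε, fun _ _ => id⟩
  | t + 1 => by
    obtain ⟨η, a, b⟩ := DD_low h ε hε t
    have := (DD_pm h t).bump (m t).B
    exact ⟨min η (m t).l, lt_min a (h t), fun x y c => min_le_min
      ((b x y c).trans (le_add_of_nonneg_right (abs_nonneg _))) (le_min
        (by linarith [this.pos x (m t).c, this.pos (m t).b y])
        (by linarith [this.pos x (m t).b, this.pos (m t).c y]))⟩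

theorem DD_fix (h : ∀ t, 0 < (m t).l) {t : ℕ} (h0 : 0 ≤ (m t).H)
    (k : DD m t (m t).c (m t).b ≤ (m t).H + (m t).l) {x y : X} (hx : (m t).B x = 0) (hy : (m t).B y = 0) :
    DD m (t + 1) x y = DD m t x y := by
  have p := DD_pm h t
  have e : (m t).B (m t).c = (m t).H := by simp [Mv.B, ts, h0]
  simp only [DD, worm, hx, hy, e, sub_zero, zero_sub, abs_neg, abs_zero, add_zero, abs_of_nonneg h0]
  exact min_eq_left (le_min
    (by linarith [p.tri x (m t).c y, p.tri (m t).c (m t).b y, abs_nonneg ((m t).B (m t).b)])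
    (by linarith [p.tri x (m t).b y, p.tri (m t).b (m t).c y, p.symm (m t).b (m t).c,
      abs_nonneg ((m t).B (m t).b)]))

theorem DD_fix' (h : ∀ t, 0 < (m t).l) (h0 : ∀ t, 0 ≤ (m t).H) {x y : X} {s t : ℕ} (a : s ≤ t)
    (k : ∀ u < t, DD m u (m u).c (m u).b ≤ (m u).H + (m u).l)
    (b : ∀ u, s ≤ u → u < t → (m u).B x = 0 ∧ (m u).B y = 0) : DD m t x y = DD m s x y := by
  induction a with
  | refl => rfl
  | @step t a ih => rw [DD_fix h (h0 t) (k t (by omega)) (b t a (by omega)).1 (b t a (by omega)).2,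
      ih (fun u c => k u (by omega)) fun u c d => b u c (by omega)]

theorem moves [CompleteSpace X] (h : ∀ t, 0 < (m t).l) (h0 : ∀ t, 0 ≤ (m t).H)
    (k : ∀ t, DD m t (m t).c (m t).b ≤ (m t).H + (m t).l)
    (hL : ∀ κ > 0, ∃ T, ∃ r : X → X → Prop, Equivalence r ∧ (∀ x y, r x y → dist x y ≤ κ) ∧
      ∀ t ≥ T, r (m t).b (m t).c ∧ ∀ x, (m t).B x ≠ 0 → r x (m t).c)
    (hU : ∀ ε > 0, ∃ T, ∀ x, ∃ p, (∀ t ≥ T, (m t).B p = 0) ∧
      ∀ u ≥ T, (m u).B x ≠ 0 → DD m u x p ≤ ε ∧ DD m (u + 1) x p ≤ ε) :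
    ∃ (Y : Type) (_ : MetricSpace Y), CompleteSpace Y ∧ ∃ h : X ≃ₜ Y,
      ∀ x y, Tendsto (DD m · x y) atTop (𝓝 (dist (h x) (h y))) := by
  classical
  refine fin (DD_pm h) (fun t => ⟨_, by positivity, DD_lip t⟩) (fun ε hε => ?_) fun ε hε => ?_
  · obtain ⟨T, a⟩ := hU (ε / 4) (by positivity)
    have : ∀ x, ∃ p, (∀ t ≥ T, (m t).B p = 0) ∧ ∀ t ≥ T, DD m t x p ≤ ε / 4 := fun x => by
      by_cases c : ∃ u, u ≥ T ∧ (m u).B x ≠ 0
      swap
      · exact ⟨x, by simpa using c, fun t _ => ((DD_pm h t).self x).trans_le (by positivity)⟩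
      obtain ⟨p, b, d⟩ := a x
      obtain ⟨e, f⟩ := Nat.find_spec c
      refine ⟨p, b, fun t ht => ?_⟩
      induction ht with
      | refl => exact (DD_fix' h h0 e (fun u _ => k u) fun u i j => ⟨not_not.1 fun g => Nat.find_min c j ⟨i, g⟩,
          b u i⟩).symm.trans_le (d _ e f).1
      | @step t ht ih =>
        by_cases g : (m t).B x = 0
        · rwa [DD_fix h (h0 t) (k t) g (b t ht)]
        · exact (d t ht g).2
    refine ⟨T, fun t ht x y => ?_⟩
    obtain ⟨p, a1, a2⟩ := this x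
    obtain ⟨q, b1, b2⟩ := this y
    have e := DD_fix' h h0 ht (fun u _ => k u) fun u i _ => ⟨a1 u i, b1 u i⟩
    have s := DD_pm h t
    have s' := DD_pm h T
    rw [abs_le]
    constructor <;> linarith [a2 t ht, a2 T le_rfl, b2 t ht, b2 T le_rfl, s.tri x p y, s.tri p q y,
      s.symm q y, s'.tri x p y, s'.tri p q y, s'.symm q y, s.tri p x q, s.tri x y q, s.symm p x,
      s'.tri p x q, s'.tri x y q, s'.symm p x]
  obtain ⟨T, r, a, b, c⟩ := hL (ε / 3) (by positivity)
  obtain ⟨η, d, e⟩ := DD_low h (ε / 3) (by positivity) T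
  have : ∀ t ≥ T, ∀ x y, (∀ x' y', r x' x → r y' y → ε / 3 ≤ dist x' y') → η ≤ DD m t x y := fun t ht => by
    induction ht with
    | refl => exact fun x y q => e x y (q x y (a.refl x) (a.refl y))
    | @step t ht ih =>
      have p := DD_pm h t
      have f : ∀ x y, (∀ x' y', r x' x → r y' y → ε / 3 ≤ dist x' y') → r x (m t).c →
          η ≤ DD m (t + 1) x y := fun x y q g => le_min
        ((ih x y q).trans (le_add_of_nonneg_right (abs_nonneg _))) (le_min (by
          linarith [ih (m t).b y fun x' y' i => q x' y' (a.trans i (a.trans (c t ht).1 (a.symm g))),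
            (p.bump (m t).B).pos x (m t).c, h t, abs_nonneg ((m t).B (m t).b - (m t).B y)]) (by
          linarith [ih (m t).c y fun x' y' i => q x' y' (a.trans i (a.symm g)),
            (p.bump (m t).B).pos x (m t).b, h t, abs_nonneg ((m t).B (m t).c - (m t).B y)]))
      intro x y q
      by_cases i : (m t).B x = 0
      · by_cases j : (m t).B y = 0
        · exact (ih x y q).trans_eq (DD_fix h (h0 t) (k t) i j).symm
        · exact (f y x (fun x' y' i j => dist_comm x' y' ▸ q y' x' j i) ((c t ht).2 y j)).trans_eq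
            ((DD_pm h _).symm _ _)
      · exact f x y q ((c t ht).2 x i)
  exact ⟨η, d, T, fun t ht x y f => this t ht x y fun x' y' i j => by
    linarith [b _ _ i, b _ _ j, dist_triangle4 x x' y' y, dist_comm x x']⟩

end Pool.Agent.H.MP_fa5791_lc
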