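import Pool.Agent.H.MP_fa5791_lc.C

set_option autoImplicit false

/-! Walls; computability of the changed metrics. -/

namespace Pool.Agent.H.MP_fa5791_lc

open Pool.Agent.Lib.helper21.PR Filter Topology

attribute [local irreducible] Primrec Computable

theorem cr_tree {F b0 b1 b2 : ℕ → ℕ → ℕ → ℝ} {c b : ℕ → ℕ} (h0 : CR fun z : ℕ × ℕ => F 0 z.1 z.2)
    (k0 : CR fun z : ℕ × ℕ × ℕ => b0 z.1 z.2.1 z.2.2) (k1 : CR fun z : ℕ × ℕ × ℕ => b1 z.1 z.2.1 z.2.2)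
    (k2 : CR fun z : ℕ × ℕ × ℕ => b2 z.1 z.2.1 z.2.2) (hc : CI O c) (hb : CI O b)
    (h1 : ∀ t i j, F (t + 1) i j = min (F t i j + b0 t i j)
      (min (F t i (c t) + b1 t i j + F t (b t) j) (F t i (b t) + b2 t i j + F t (c t) j))) :
    CR fun z : ℕ × ℕ × ℕ => F z.1 z.2.1 z.2.2 := by
  rw [CR] at *
  obtain ⟨q, E, a1, a2, a3⟩ := h0
  obtain ⟨q0, E0, c1, c2, c3⟩ := k0
  obtain ⟨q1, E1, d1, d2, d3⟩ := k1
  obtain ⟨q2, E2, e1, e2, e3⟩ := k2
  let Q : ℕ → (ℕ × ℕ) × ℕ → ℕ := Nat.rec q fun t f z => min (f z + q0 ((t, z.1), z.2)) (min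
    (f ((z.1.1, c t), z.2) + q1 ((t, z.1), z.2) + f ((b t, z.1.2), z.2))
    (f ((z.1.1, b t), z.2) + q2 ((t, z.1), z.2) + f ((c t, z.1.2), z.2)))
  let R : ℕ → ℕ × ℕ → ℕ := Nat.rec E fun t f z => f z + f (z.1, c t) + f (b t, z.2) + f (z.1, b t) +
    f (c t, z.2) + E0 (t, z) + E1 (t, z) + E2 (t, z)
  have hQ := ci_tree (Y := O) (F := Q) (h := fun t z v => min (v.getD 0 0 + q0 ((t, z.1), z.2)) (min
    (v.getD 1 0 + q1 ((t, z.1), z.2) + v.getD 2 0) (v.getD 3 0 + q2 ((t, z.1), z.2) + v.getD 4 0)))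
    (dep := fun t z => [z, ((z.1.1, c t), z.2), ((b t, z.1.2), z.2), ((z.1.1, b t), z.2), ((c t, z.1.2), z.2)])
    a1 (by fun_prop) (by fun_prop) (fun _ => rfl) fun _ _ => rfl
  have hR := ci_tree (Y := O) (F := R) (h := fun t z v => v.getD 0 0 + v.getD 1 0 + v.getD 2 0 + v.getD 3 0 +
    v.getD 4 0 + E0 (t, z) + E1 (t, z) + E2 (t, z))
    (dep := fun t z => [z, (z.1, c t), (b t, z.2), (z.1, b t), (c t, z.2)])
    a2 (by fun_prop) (by fun_prop) (fun _ => rfl) fun _ _ => rfl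
  refine ⟨fun z => Q z.1.1 (z.1.2, z.2), fun z => R z.1 z.2, ci_comp hQ (g := fun z : (ℕ × ℕ × ℕ) × ℕ =>
    (z.1.1, z.1.2, z.2)) (by fun_prop), hR, fun ⟨t, i, j⟩ k => ?_⟩
  induction t generalizing i j with
  | zero => exact a3 (i, j) k
  | succ t ih =>
    have p : (0 : ℝ) ≤ 2 ^ k := by positivity
    have := abs_le.1 (ih i j)
    have := abs_le.1 (ih i (c t))
    have := abs_le.1 (ih (b t) j)
    have := abs_le.1 (ih i (b t))
    have := abs_le.1 (ih (c t) j)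
    have := abs_le.1 (c3 (t, i, j) k)
    have := abs_le.1 (d3 (t, i, j) k)
    have := abs_le.1 (e3 (t, i, j) k)
    simp only [h1, min_mul_of_nonneg _ _ p, add_mul, Q, R] at *
    push_cast
    refine (abs_min_sub_min_le_max _ _ _ _).trans (max_le ?_ ((abs_min_sub_min_le_max _ _ _ _).trans
      (max_le ?_ ?_))) <;> rw [abs_le] <;> constructor <;> linarith

theorem cr_rec {F b : ℕ → ℕ × ℕ → ℝ} (h0 : CR (F 0)) (k0 : CR fun z : ℕ × ℕ × ℕ => b z.1 z.2)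
    (h1 : ∀ t z, F (t + 1) z = max (F t z) (b t z)) : CR fun z : ℕ × ℕ × ℕ => F z.1 z.2 := by
  rw [CR] at *
  obtain ⟨q, E, a1, a2, a3⟩ := h0
  obtain ⟨q0, E0, c1, c2, c3⟩ := k0
  refine ⟨fun z => Nat.rec (motive := fun _ => ℕ) (q (z.1.2, z.2)) (fun t f => max f (q0 ((t, z.1.2), z.2)))
    z.1.1, fun z => Nat.rec (motive := fun _ => ℕ) (E z.2) (fun t f => f + E0 (t, z.2)) z.1,
    by fun_prop, by fun_prop, fun ⟨t, z⟩ k => ?_⟩
  induction t with
  | zero => exact a3 z k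
  | succ t ih =>
    simp only [h1, max_mul_of_nonneg _ _ (by positivity : (0 : ℝ) ≤ 2 ^ k)] at *
    push_cast
    exact (abs_max_sub_max_le_max _ _ _ _).trans ((max_le_add_of_nonneg (abs_nonneg _) (abs_nonneg _)).trans
      (add_le_add ih (c3 (t, z) k)))

variable {X : Type} [MetricSpace X]

def dd (c : ℕ → X) (i j : ℕ) : ℝ := dist (c i) (c j)

@[fun_prop] theorem cr_dd {α : Type} [Primcodable α] {c : ℕ → X} [h : Fact (Pres c)] {i j : α → ℕ}
    (hi : CI O i) (hj : CI O j) : CR fun a => dd c (i a) (j a) :=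
  cr_comp (pres_iff.1 h.1).2 (ci_pair hi hj)

theorem pres_lim {Y : Type} [MetricSpace Y] {c : ℕ → X} (hc : DenseRange c) (h : X ≃ₜ Y) {d : ℕ → X → X → ℝ}
    (h1 : ∀ x y, Tendsto (d · x y) atTop (𝓝 (dist (h x) (h y))))
    (h2 : CR fun z : ℕ × ℕ × ℕ => d z.1 (c z.2.1) (c z.2.2))
    (h3 : ∀ t i j, i ≤ t → j ≤ t → d (t + 1) (c i) (c j) = d t (c i) (c j)) : Pres (h ∘ c) := by
  refine pres_iff.2 ⟨h.surjective.denseRange.comp hc h.continuous, ?_⟩
  have := cr_comp h2 (g := fun z : ℕ × ℕ => (z.1 + z.2, z)) (by fun_prop)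
  have e : ∀ i j, d (i + j) (c i) (c j) = dist (h (c i)) (h (c j)) := fun i j =>
    tendsto_nhds_unique (tendsto_const_nhds.congr' ((eventually_ge_atTop (i + j)).mono fun t ht => by
      induction ht with
      | refl => rfl
      | @step t ht ih => exact ih.trans (h3 t i j (le_self_add.trans ht) (le_add_self.trans ht)).symm)) (h1 _ _)
  simpa only [e, Function.comp] using this

/-- moves described by indices -/
noncomputable def mkv (c : ℕ → X) (v : ℕ × ℕ × ℕ × ℕ × ℕ) : Mv X :=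
  ⟨c v.1, c v.2.1, dy v.2.2.1 v.2.2.2.1, dy (max v.2.2.1 1) v.2.2.2.1, v.2.2.2.2⟩

theorem DD_cr {c : ℕ → X} [h : Fact (Pres c)] {v : ℕ → ℕ × ℕ × ℕ × ℕ × ℕ} (hv : CI O v) :
    CR fun z : ℕ × ℕ × ℕ => DD (fun t => mkv c (v t)) z.1 (c z.2.1) (c z.2.2) := by
  obtain ⟨B, hB, e⟩ : ∃ B : ℕ → ℕ → ℝ, (CR fun z : ℕ × ℕ => B z.1 z.2) ∧
      ∀ t i, B t i = ts (dy (v t).2.2.1 (v t).2.2.2.1) ((v t).2.2.2.2 * dd c i (v t).1) :=
    ⟨_, by fun_prop, fun _ _ => rfl⟩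
  refine cr_tree (F := fun t i j => DD (fun t => mkv c (v t)) t (c i) (c j)) (c := fun t => (v t).1)
    (b := fun t => (v t).2.1) (b0 := fun t i j => |B t i - B t j|)
    (b1 := fun t i j => |B t i - B t (v t).1| + dy (max (v t).2.2.1 1) (v t).2.2.2.1 + |B t (v t).2.1 - B t j|)
    (b2 := fun t i j => |B t i - B t (v t).2.1| + dy (max (v t).2.2.1 1) (v t).2.2.2.1 + |B t (v t).1 - B t j|)
    (pres_iff.1 h.1).2 (by fun_prop) (by fun_prop) (by fun_prop) (by fun_prop) (by fun_prop) fun t i j => ?_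
  simp only [DD, worm, e, mkv, Mv.B, dd]
  congr 2 <;> ring

/-- a wall with height, slope, centre and radius -/
noncomputable def wl (c : ℕ → X) (v : (ℕ × ℕ) × ℕ × ℕ × ℕ × ℕ) (x : X) : ℝ :=
  ts (dy v.1.1 v.1.2) (v.2.1 * |dist x (c v.2.2.1) - dy v.2.2.2.1 v.2.2.2.2|)

noncomputable def D1 (c : ℕ → X) (v : ℕ → (ℕ × ℕ) × ℕ × ℕ × ℕ × ℕ) : ℕ → X → X → ℝ
  | 0 => dist
  | t + 1 => fun x y => max (D1 c v t x y) |wl c (v t) x - wl c (v t) y|

theorem walls [CompleteSpace X] {c : ℕ → X} [h : Fact (Pres c)] {v : ℕ → (ℕ × ℕ) × ℕ × ℕ × ℕ × ℕ} (hv : CI O v)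
    (h1 : ∀ t, ∀ i ≤ t, wl c (v t) (c i) = 0) (h2 : ∀ ε > 0, ∀ᶠ t in atTop, dy (v t).1.1 (v t).1.2 ≤ ε) :
    ∃ (Y : Type) (_ : MetricSpace Y), CompleteSpace Y ∧ ∃ h : X ≃ₜ Y, Pres (h ∘ c) ∧ ∀ x y,
      dist x y ≤ dist (h x) (h y) ∧ ∀ t, |wl c (v t) x - wl c (v t) y| ≤ dist (h x) (h y) := by
  have m : ∀ x y, Monotone (D1 c v · x y) := fun x y => monotone_nat_of_le_succ fun _ => le_max_left _ _
  obtain ⟨Y, _, a, f, b⟩ := fin (d := D1 c v) (fun t => by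
      induction t with
      | zero => exact pm_dist
      | succ t ih => exact ⟨fun x => by simp [D1, ih.self], fun x y => by simp only [D1]; rw [ih.symm, abs_sub_comm],
          fun x y z => max_le ((ih.tri x y z).trans (add_le_add (le_max_left _ _) (le_max_left _ _)))
            ((abs_sub_le _ _ _).trans (add_le_add (le_max_right _ _) (le_max_right _ _)))⟩)
    (fun t => by
      induction t with
      | zero => exact ⟨1, one_pos, fun x y => (one_mul _).ge⟩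
      | succ t ih =>
        obtain ⟨L, a, b⟩ := ih
        refine ⟨L + (v t).2.1, by positivity, fun x y => max_le ((b x y).trans (by gcongr; simp))
          ((abs_max_sub_max_le_abs _ _ _).trans ?_)⟩
        rw [sub_sub_sub_cancel_left, ← mul_sub, abs_mul, Nat.abs_cast]
        refine mul_le_mul (by linarith) ((abs_abs_sub_abs_le_abs_sub _ _).trans ?_) (abs_nonneg _)
          (by positivity)
        rw [sub_sub_sub_cancel_right, dist_comm x y]
        exact abs_dist_sub_le _ _ _)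
    (fun ε hε => by
      obtain ⟨T, hT⟩ := eventually_atTop.1 (h2 ε hε)
      refine ⟨T, fun t ht x y => ?_⟩
      rw [abs_of_nonneg (sub_nonneg.2 (m x y ht)), sub_le_iff_le_add]
      have p : 0 ≤ D1 c v T x y := dist_nonneg.trans (m x y (Nat.zero_le T))
      induction ht with
      | refl => linarith
      | @step t ht ih =>
        have : ∀ x, 0 ≤ wl c (v t) x ∧ wl c (v t) x ≤ ε := fun x => ⟨le_max_right _ _, max_le
          ((sub_le_self _ (by positivity)).trans (hT t ht)) hε.le⟩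
        exact max_le ih (abs_le.2 ⟨by linarith [this x, this y], by linarith [this x, this y]⟩))
    fun ε hε => ⟨ε, hε, 0, fun t ht x y k => k.trans (m x y ht)⟩
  refine ⟨Y, _, a, f, pres_lim h.1.1 f b ?_ fun t i j hi hj => ?_, fun x y =>
    ⟨ge_of_tendsto' (b x y) fun t => m x y (Nat.zero_le t), fun t => ge_of_tendsto (b x y)
      ((eventually_ge_atTop (t + 1)).mono fun u hu => (le_max_right _ _).trans (m x y hu))⟩⟩
  · obtain ⟨B, hB, e⟩ : ∃ B : ℕ → ℕ → ℝ, (CR fun z : ℕ × ℕ => B z.1 z.2) ∧ ∀ t i, B t i =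
        ts (dy (v t).1.1 (v t).1.2) ((v t).2.1 * |dd c i (v t).2.2.1 - dy (v t).2.2.2.1 (v t).2.2.2.2|) :=
      ⟨_, by fun_prop, fun _ _ => rfl⟩
    exact cr_rec (F := fun t z => D1 c v t (c z.1) (c z.2)) (b := fun t z => |B t z.1 - B t z.2|)
      (pres_iff.1 h.1).2 (by fun_prop) fun t z => by simp only [D1, e, wl, dd]
  · simp only [D1, h1 t i hi, h1 t j hj, sub_self, abs_zero]
    exact max_eq_left (dist_nonneg.trans (m _ _ (Nat.zero_le t)))

theorem far (c : ℕ → X) (M : ℕ) {f : ℕ → ℝ} (h : ∀ m ≤ M, 0 < f m) (N : ℕ) :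
    ∃ G > N, ∀ m < M + 1, dy 1 0 < (G : ℕ) * f m := by
  have : ∀ᶠ G : ℕ in atTop, ∀ m ∈ Set.Iic M, dy 1 0 < G * f m := (eventually_all_finite (Set.finite_Iic M)).2
    fun m hm => (tendsto_natCast_atTop_atTop.atTop_mul_const (h m hm)).eventually_gt_atTop _
  exact ((eventually_gt_atTop N).and this).exists.imp fun G k => ⟨k.1, fun m hm => k.2 m (Nat.le_of_lt_succ hm)⟩

theorem ex_nw {c : ℕ → X} [h : Fact (Pres c)] {o r : ℕ}
    (ho : ∀ x, dist x (c o) < dy 1 r → (𝓝[≠] x).NeBot) : ∃ nw : ℕ × ℕ × ℕ → ℕ × ℕ, CI O nw ∧ ∀ a N M,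
      dist (c a) (c o) ≤ dy 1 (r + 1) → N * dist (c a) (c (nw (a, N, M)).1) < 1 ∧ N < (nw (a, N, M)).2 ∧
        ∀ m ≤ M, 1 < (nw (a, N, M)).2 * dist (c m) (c (nw (a, N, M)).1) := by
  obtain ⟨f, a, b⟩ := RI.choice (Y := O) (R := fun (x : ℕ × ℕ × ℕ) (y : ℕ × ℕ) => dy 1 (r + 1) < dd c x.1 o ∨
    x.2.1 * dd c x.1 y.1 < dy 1 0 ∧ x.2.1 < y.2 ∧ ∀ m < x.2.2 + 1, dy 1 0 < y.2 * dd c m y.1) (by fun_prop)
    fun ⟨a, N, M⟩ => by
      by_cases k : dy 1 (r + 1) < dd c a o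
      · exact ⟨(0, 0), .inl k⟩
      have := ho (c a) ((not_lt.1 k).trans_lt (by unfold dy; gcongr <;> simp))
      have f := (Set.finite_Iic M).image c
      obtain ⟨y, hy⟩ := ((infinite_of_mem_nhds (c a) (Metric.ball_mem_nhds _
        (by positivity : (0 : ℝ) < 1 / (N + 1)))).diff f).nonempty
      obtain ⟨t, t1, t2⟩ := h.1.1.exists_mem_open (Metric.isOpen_ball.sdiff f.isClosed) ⟨y, hy⟩
      obtain ⟨G, g⟩ := far c M (f := fun m => dd c m t) (fun m hm => dist_pos.2 fun e => t2 ⟨m, hm, e⟩) N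
      refine ⟨(t, G), .inr ⟨?_, g⟩⟩
      rw [Metric.mem_ball', lt_div_iff₀ (by positivity)] at t1
      simp only [dy, dd]
      linarith [dist_nonneg (x := c a) (y := c t)]
  refine ⟨f, a, fun a N M k => ?_⟩
  simpa [dy, dd, Nat.lt_succ_iff] using (b (a, N, M)).resolve_left k.not_gt

theorem ex_ws {c : ℕ → X} [h : Fact (Pres c)] : ∃ ws : ℕ × ℕ × ℕ → ℕ × ℕ × ℕ, CI O ws ∧ ∀ p k M,
    dy 1 k < dy (ws (p, k, M)).2.1 (ws (p, k, M)).2.2 ∧ dy (ws (p, k, M)).2.1 (ws (p, k, M)).2.2 < dy 3 k ∧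
      ∀ m ≤ M, 1 < (ws (p, k, M)).1 * |dist (c m) (c p) - dy (ws (p, k, M)).2.1 (ws (p, k, M)).2.2| := by
  obtain ⟨f, a, b⟩ := RI.choice (Y := O) (R := fun (x : ℕ × ℕ × ℕ) (y : ℕ × ℕ × ℕ) =>
    dy 1 x.2.1 < dy y.2.1 y.2.2 ∧ dy y.2.1 y.2.2 < dy 3 x.2.1 ∧
      ∀ m < x.2.2 + 1, dy 1 0 < y.1 * |dd c m x.1 - dy y.2.1 y.2.2|) (by fun_prop) fun ⟨p, k, M⟩ => by
      have e : ∀ j, dy (2 ^ j + 1) (k + j) = (1 + 1 / 2 ^ j) / 2 ^ k := fun j => by
        simp only [dy, pow_add]; push_cast; field_simp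
      obtain ⟨_, ⟨j, rfl⟩, t⟩ := ((Set.infinite_range_of_injective (f := fun j => dy (2 ^ j + 1) (k + j))
        (StrictAnti.injective fun i j a => by simp only [e]; gcongr; simp)).diff
          ((Set.finite_Iic M).image fun m => dd c m p)).nonempty
      obtain ⟨G, g⟩ := far c M (f := fun m => |dd c m p - dy (2 ^ j + 1) (k + j)|)
        (fun m hm => abs_pos.2 (sub_ne_zero.2 fun e => t ⟨m, hm, e⟩)) 0
      have : (1 : ℝ) / 2 ^ j ≤ 1 := div_le_one_of_le₀ (one_le_pow₀ one_le_two) (by positivity)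
      have : (0 : ℝ) < 1 / 2 ^ j := by positivity
      exact ⟨(G, 2 ^ j + 1, k + j), by rw [e, dy]; gcongr; simpa, by rw [e, dy]; gcongr; push_cast; linarith, g.2⟩
  exact ⟨f, a, fun p k M => by simpa [dy, dd, Nat.lt_succ_iff] using b (p, k, M)⟩

theorem ex_ter {c : ℕ → X} [h : Fact (Pres c)] {o r : ℕ}
    (ho : ∀ x, dist x (c o) < dy 1 r → (𝓝[≠] x).NeBot) : ∃ ae ν : ℕ → ℕ, CI O ae ∧ CI O ν ∧ (∀ e, e ≤ ν e) ∧
      (∀ e x, dist x (c (ae e)) < dy 1 (ν e) → dist x (c o) ≤ dy 1 (r + 1)) ∧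
      ∀ e e' x, dist x (c (ae e)) < dy 1 (ν e) → dist x (c (ae e')) < dy 1 (ν e') → e = e' := by
  obtain ⟨nw, a, b⟩ := ex_nw ho
  let n : ℕ → ℕ := fun e => Nat.rec (r + 1) (fun _ n => (nw (o, 2 ^ (n + 1), o)).2 + 1) e
  have hn : CI O n := by unfold n; fun_prop
  have b := fun e => b o (2 ^ (n e + 1)) o (by simp [dy])
  have m : StrictMono n := strictMono_nat_of_lt_succ fun e =>
    (Nat.lt_succ_self _).trans (Nat.lt_two_pow_self.trans ((b e).2.1.trans (Nat.lt_succ_self _)))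
  have d : ∀ {i j}, i ≤ j → dy 1 j ≤ dy 1 i := fun h => by unfold dy; gcongr; simp
  have k : ∀ e x, dist x (c (nw (o, 2 ^ (n e + 1), o)).1) < dy 1 (n (e + 1)) →
      dy 1 (n (e + 1)) < dist x (c o) ∧ dist x (c o) < dy 1 (n e) := fun e x hx => by
    obtain ⟨b1, -, b3⟩ := b e
    have b3 := b3 o le_rfl
    have d1 := d (m.monotone.comp monotone_id e.le_succ |> fun _ => Nat.succ_le_of_lt (m e.lt_succ_self))
    have b4 : 2 * dy 1 (n (e + 1)) < dist (c o) (c (nw (o, 2 ^ (n e + 1), o)).1) := by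
      have : (((nw (o, 2 ^ (n e + 1), o)).2 : ℕ) : ℝ) < 2 ^ (nw (o, 2 ^ (n e + 1), o)).2 := by
        exact_mod_cast Nat.lt_two_pow_self
      change 2 * dy 1 ((nw (o, 2 ^ (n e + 1), o)).2 + 1) < _
      rw [dy, pow_succ, ← mul_div_assoc, div_lt_iff₀ (by positivity)]
      have := mul_le_mul_of_nonneg_right this.le (dist_nonneg (x := c o) (y := c (nw (o, 2 ^ (n e + 1), o)).1))
      push_cast at this ⊢
      linarith
    have b5 : dist (c o) (c (nw (o, 2 ^ (n e + 1), o)).1) < dy 1 (n e + 1) := by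
      rw [dy, lt_div_iff₀ (by positivity)]; push_cast at b1 ⊢; linarith
    have : dy 1 (n e) = 2 * dy 1 (n e + 1) := by simp only [dy, pow_succ]; field_simp
    constructor <;> linarith [dist_triangle_right x (c o) (c (nw (o, 2 ^ (n e + 1), o)).1),
      dist_triangle_left (c o) (c (nw (o, 2 ^ (n e + 1), o)).1) x]
  refine ⟨fun e => (nw (o, 2 ^ (n e + 1), o)).1, fun e => n (e + 1), by fun_prop, by fun_prop,
    fun e => e.le_succ.trans m.le_apply, fun e x a => (k e x a).2.le.trans (d (m.monotone e.zero_le)),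
    fun e e' x a b => ?_⟩
  by_contra f
  rcases Nat.lt_or_gt_of_ne f with f | f <;> linarith [k e x a, k e' x b, d (m.monotone (Nat.succ_le_of_lt f))]

end Pool.Agent.H.MP_fa5791_lc
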