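import Pool.Agent.H.MP_fa5791_lc.A

set_option autoImplicit false

/-! A finite injury scheme: every requirement walks along a tree guided by limit guesses. -/

namespace Pool.Agent.H.MP_fa5791_lc

open Pool.Agent.Lib.helper21.PR Filter Nat

attribute [local irreducible] Primrec Computable

theorem ci_cov {δ : Type} [Primcodable δ] {f : ℕ → List δ → δ} (h : CI O fun z : ℕ × List δ => f z.1 z.2) :
    ∃ g : ℕ → δ, CI O g ∧ ∀ s, g s = f s ((List.range s).map g) := by
  let H : ℕ → List δ := fun s => Nat.rec [] (fun s l => l ++ [f s l]) s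
  have : CI O H := by unfold H; fun_prop
  have e : ∀ s, H s = (List.range s).map fun s => f s (H s) := fun s => by
    induction s with
    | zero => rfl
    | succ s ih => rw [List.range_succ, List.map_append, ← ih]; rfl
  exact ⟨fun s => f s (H s), by fun_prop, fun s => by rw [← e]⟩

theorem engine {σ γ : Type} [Primcodable σ] [Primcodable γ] {root : ℕ → σ} (g0 : γ)
    {act : ℕ → γ → ℕ → σ → ℕ → σ × γ} {W : ℕ × ℕ × σ → ℕ → ℕ} {V : ℕ × ℕ × σ → ℕ} (h1 : CI O root)
    (h2 : CI O fun z : ℕ × γ × ℕ × σ × ℕ => act z.1 z.2.1 z.2.2.1 z.2.2.2.1 z.2.2.2.2)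
    (h3 : CI O fun z : (ℕ × ℕ × σ) × ℕ => W z.1 z.2) (h4 : ∀ a, ∀ᶠ s in atTop, W a s = V a) :
    ∃ (lev v ps : ℕ → ℕ) (par : ℕ → σ) (out : ℕ → σ × γ) (Good : ℕ → Prop), CI O out ∧
      (∀ s, out s = act s (if s = 0 then g0 else (out (s - 1)).2) (lev s) (par s) (v s)) ∧
      (∀ s, lev s = 0 → par s = root s.unpair.1) ∧
      (∀ s, lev s ≠ 0 → ps s < s ∧ (ps s).unpair.1 = s.unpair.1 ∧ v (ps s) ≠ 0 ∧ lev (ps s) + 1 = lev s ∧
        par s = (out (ps s)).1) ∧
      (∀ s, Good s → v s ≠ 0 ∧ v s = V (s.unpair.1, lev s, par s) ∧ ∀ᶠ t in atTop,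
        t.unpair.1 = s.unpair.1 → Relation.TransGen (fun a b => lev b ≠ 0 ∧ ps b = a) s t) ∧
      (∀ e, (∃ s, Good s ∧ s.unpair.1 = e ∧ lev s = 0) ∨
        V (e, 0, root e) = 0 ∧ ∀ᶠ t in atTop, t.unpair.1 = e → v t = 0) ∧
      ∀ s, Good s → (∃ t, Good t ∧ lev t ≠ 0 ∧ ps t = s) ∨ V (s.unpair.1, lev s + 1, (out s).1) = 0 ∧
        ∀ᶠ t in atTop, t.unpair.1 = s.unpair.1 → v t = 0 := by
  classical
  obtain ⟨d0, -⟩ : ∃ d : List ℕ × ℕ × ℕ × σ × γ, True := ⟨([], 0, 0, root 0, g0), trivial⟩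
  obtain ⟨P, p1, p2⟩ : ∃ P : ℕ → List (List ℕ × ℕ × ℕ × σ × γ) → List ℕ,
      CI O (fun z : ℕ × List (List ℕ × ℕ × ℕ × σ × γ) => P z.1 z.2) ∧ ∀ s H, P s H =
        if s.unpair.2 = 0 then [] else (H.getD (pair s.unpair.1 (s.unpair.2 - 1)) d0).1 :=
    ⟨_, by fun_prop, fun _ _ => rfl⟩
  obtain ⟨N, n1, n2⟩ : ∃ N : ℕ → List (List ℕ × ℕ × ℕ × σ × γ) → ℕ → σ,
      CI O (fun z : ℕ × List (List ℕ × ℕ × ℕ × σ × γ) × ℕ => N z.1 z.2.1 z.2.2) ∧ ∀ s H i, N s H i =
        if i = 0 then root s.unpair.1 else (H.getD ((P s H).getD (i - 1) 0) d0).2.2.2.1 :=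
    ⟨_, by fun_prop, fun _ _ _ => rfl⟩
  obtain ⟨Q, q1, q2⟩ : ∃ Q : ℕ → List (List ℕ × ℕ × ℕ × σ × γ) → ℕ → Prop,
      CI O (fun z : ℕ × List (List ℕ × ℕ × ℕ × σ × γ) × ℕ => cd (Q z.1 z.2.1 z.2.2)) ∧ ∀ s H i, Q s H i ↔
        i = (P s H).length ∨ W (s.unpair.1, i, N s H i) s ≠ (H.getD ((P s H).getD i 0) d0).2.2.1 :=
    ⟨_, by fun_prop, fun _ _ _ => .rfl⟩
  have q3 : ∀ s H, ∃ i, Q s H i := fun s H => ⟨_, (q2 _ _ _).2 (.inl rfl)⟩
  obtain ⟨I, i1, i2⟩ : ∃ I : ℕ → List (List ℕ × ℕ × ℕ × σ × γ) → ℕ,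
      CI O (fun z : ℕ × List (List ℕ × ℕ × ℕ × σ × γ) => I z.1 z.2) ∧ ∀ s H, I s H = Nat.find (q3 s H) :=
    ⟨_, CI.mk (R := fun z b => Q z.1 z.2 b ∧ ∀ w < b, ¬ Q z.1 z.2 w) (i_ci (ci_and (ci_comp q1
      (g := fun z : (ℕ × List _) × ℕ => (z.1.1, z.1.2, z.2)) (by fun_prop)) (ci_forall_lt (ci_not (ci_comp q1
      (g := fun z : ((ℕ × List _) × ℕ) × ℕ => (z.1.1.1, z.1.1.2, z.2)) (by fun_prop))) (by fun_prop))))
      fun a b => (Nat.find_eq_iff (q3 a.1 a.2)).symm, fun _ _ => rfl⟩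
  obtain ⟨D, d1, d2⟩ := ci_cov (f := fun s H => ((P s H).take (I s H) ++
    if W (s.unpair.1, I s H, N s H (I s H)) s = 0 then [] else [s], I s H,
    W (s.unpair.1, I s H, N s H (I s H)) s, act s (if s = 0 then g0 else (H.getD (s - 1) d0).2.2.2.2) (I s H)
      (N s H (I s H)) (W (s.unpair.1, I s H, N s H (I s H)) s))) (by fun_prop)
  have g : ∀ s t, t < s → ((List.range s).map D).getD t d0 = D t := fun s t h => by simp [h]
  obtain ⟨pr, e1⟩ : ∃ pr : ℕ → List ℕ, ∀ s, pr s = P s ((List.range s).map D) := ⟨_, fun _ => rfl⟩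
  obtain ⟨nd, e2⟩ : ∃ nd : ℕ → ℕ → σ, ∀ s, nd s = N s ((List.range s).map D) := ⟨_, fun _ => rfl⟩
  obtain ⟨lev, e3⟩ : ∃ lev : ℕ → ℕ, ∀ s, lev s = I s ((List.range s).map D) := ⟨_, fun _ => rfl⟩
  obtain ⟨v, e4⟩ : ∃ v : ℕ → ℕ, ∀ s, v s = W (s.unpair.1, lev s, nd s (lev s)) s := ⟨_, fun _ => rfl⟩
  simp only [← e1, ← e2, ← e3, ← e4] at d2
  have a0 : ∀ e, pr (pair e 0) = [] := fun e => by simp [e1, p2]
  have a1 : ∀ e j, pr (pair e (j + 1)) = (pr (pair e j)).take (lev (pair e j)) ++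
      if v (pair e j) = 0 then [] else [pair e j] := fun e j => by
    rw [e1, p2, unpair_pair, if_neg (by simp), g _ _ (pair_lt_pair_right _ (by simp)), Nat.add_sub_cancel, d2]
  have a2 : ∀ s, lev s ≤ (pr s).length := fun s => by
    rw [e3, i2, e1]; exact Nat.find_min' _ ((q2 _ _ _).2 (.inl rfl))
  have a3 : ∀ e j i, i < (pr (pair e j)).length → (pr (pair e j)).getD i 0 < pair e j ∧
      ((pr (pair e j)).getD i 0).unpair.1 = e ∧ v ((pr (pair e j)).getD i 0) ≠ 0 ∧
      lev ((pr (pair e j)).getD i 0) = i ∧ (pr ((pr (pair e j)).getD i 0)).take i = (pr (pair e j)).take i := by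
    intro e j
    induction j with
    | zero => simp [a0]
    | succ j ih =>
      intro i hi
      have b1 := a2 (pair e j)
      have b2 := pair_lt_pair_right e j.lt_succ_self
      rw [a1] at hi ⊢
      by_cases c : i < lev (pair e j)
      · have : ((pr (pair e j)).take (lev (pair e j)) ++ if v (pair e j) = 0 then [] else [pair e j]).getD i 0 =
            (pr (pair e j)).getD i 0 := by
          simp [List.getElem?_append_left, c, c.trans_le b1]
        obtain ⟨x1, x2, x3, x4, x5⟩ := ih i (by omega)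
        rw [this, x5, List.take_append_of_le_length (by simp; omega), List.take_take, min_eq_left c.le]
        exact ⟨x1.trans b2, x2, x3, x4, rfl⟩
      · split_ifs at hi ⊢ with k
        · simp at hi; omega
        · obtain rfl : i = lev (pair e j) := by simp at hi; omega
          simp [b1, b2, k]
  replace a3 := fun s => pair_unpair s ▸ a3 s.unpair.1 s.unpair.2
  have a4 : ∀ s i, i ≤ (pr s).length → nd s i = if i = 0 then root s.unpair.1 else
      (D ((pr s).getD (i - 1) 0)).2.2.2.1 := fun s i h => by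
    rw [e2, n2, ← e1]
    split_ifs with c
    exacts [rfl, by rw [g _ _ (a3 s _ (by omega)).1]]
  have a5 : ∀ s i, i < (pr s).length → i ≤ lev s →
      (i < lev s ↔ W (s.unpair.1, i, nd s i) s = v ((pr s).getD i 0)) := fun s i h k => by
    have := q2 s ((List.range s).map D) i
    rw [← e1, ← e2, g _ _ (a3 s i h).1, d2, or_iff_right h.ne] at this
    rw [e3, i2] at k ⊢
    exact ⟨fun c => not_not.1 (mt this.2 (Nat.find_min _ c)), fun c => k.lt_of_ne fun f =>
      this.1 (f ▸ Nat.find_spec _) c⟩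
  let G : ℕ → List ℕ → Prop := fun e l => ∀ᶠ t in atTop, t.unpair.1 = e → (pr t).take l.length = l ∧ l.length ≤ lev t
  have key : ∀ e l τ, G e l → τ = (if l.length = 0 then root e else (D (l.getD (l.length - 1) 0)).2.2.2.1) →
      (∃ s, G e (l ++ [s]) ∧ s.unpair.1 = e ∧ lev s = l.length ∧ (pr s).take l.length = l ∧ v s ≠ 0 ∧
        v s = V (e, l.length, τ)) ∨ V (e, l.length, τ) = 0 ∧ ∀ᶠ t in atTop, t.unpair.1 = e → v t = 0 := by
    intro e l τ hG hτ
    obtain ⟨T, hT⟩ := eventually_atTop.1 (hG.and (h4 (e, l.length, τ)))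
    have b1 : ∀ t ≥ T, t.unpair.1 = e → W (t.unpair.1, l.length, nd t l.length) t = V (e, l.length, τ) :=
      fun t ht c => by
        obtain ⟨x1, x2⟩ := (hT t ht).1 c
        rw [a4 _ _ (x2.trans (a2 t)), ← (hT t ht).2, hτ, c]
        split_ifs with k
        · rfl
        · have := congrArg (·.getD (l.length - 1) 0) x1
          simp only [List.getD_eq_getElem?_getD, List.getElem?_take,
            if_pos (show l.length - 1 < l.length by omega)] at this ⊢
          rw [this]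
    by_cases c : V (e, l.length, τ) = 0
    · refine .inr ⟨c, (eventually_ge_atTop T).mono fun t ht k => ?_⟩
      obtain ⟨-, x2⟩ := (hT t ht).1 k
      rw [e4, ← x2.eq_of_not_lt fun f => (a3 t _ (f.trans_le (a2 t))).2.2.1
        (((a5 t _ (f.trans_le (a2 t)) x2).1 f).symm.trans ((b1 t ht k).trans c)), b1 t ht k, c]
    have b2 : ∀ j ≥ T, pair e j ≥ T := fun j hj => hj.trans (right_le_pair _ _)
    obtain ⟨x1, x2⟩ := (hT _ (b2 T le_rfl)).1 (by simp)
    obtain ⟨s, y1, y2, y3, y4, y5⟩ : ∃ s, (pr (pair e (T + 1))).take (l.length + 1) = l ++ [s] ∧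
        s.unpair.1 = e ∧ lev s = l.length ∧ (pr s).take l.length = l ∧ v s = V (e, l.length, τ) := by
      have z := b1 _ (b2 T le_rfl) (by simp)
      rcases x2.eq_or_lt with k | k
      · rw [k, ← e4] at z
        refine ⟨pair e T, ?_, by simp, k.symm, x1, k ▸ z⟩
        rw [a1, ← k, x1, if_neg (by rw [z, ← k]; exact c), List.take_of_length_le (by simp)]
      · have k' := k.trans_le (a2 _)
        obtain ⟨-, z2, -, z4, z5⟩ := a3 _ _ k'
        refine ⟨_, ?_, by simpa using z2, z4, z5.trans x1, ((a5 _ _ k' x2).1 k).symm.trans z⟩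
        rw [a1, List.take_append_of_le_length (by simp; omega), List.take_take, min_eq_left k,
          List.take_add_one, x1]
        simp [k']
    have b3 : ∀ j ≥ T + 1, (pr (pair e j)).take (l.length + 1) = l ++ [s] →
        l.length + 1 ≤ lev (pair e j) := fun j hj k => by
      have k1 : l.length < (pr (pair e j)).length := by
        have := congrArg List.length k; simp at this; omega
      have k2 : (pr (pair e j)).getD l.length 0 = s := by
        have := congrArg (·.getD l.length 0) k; simpa [List.getElem?_take] using this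
      exact (a5 _ _ k1 ((hT _ (b2 j (by omega))).1 (by simp)).2).2
        ((b1 _ (b2 j (by omega)) (by simp)).trans (k2 ▸ y5.symm))
    have b4 : ∀ j ≥ T + 1, (pr (pair e j)).take (l.length + 1) = l ++ [s] := fun j hj => by
      induction hj with
      | refl => exact y1
      | @step j hj ih =>
        have := b3 j hj ih
        rw [a1, List.take_append_of_le_length (by have := a2 (pair e j); simp; omega), List.take_take,
          min_eq_left this, ih]
    refine .inl ⟨s, (eventually_gt_atTop (pair e T)).mono fun t ht k => ?_, y2, y3, y4, y5 ▸ c, y5⟩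
    have k1 : T + 1 ≤ t.unpair.2 := by
      by_contra f
      rw [← pair_unpair t, k] at ht
      exact (lt_of_lt_of_le ht (by rcases (by omega : t.unpair.2 < T ∨ t.unpair.2 = T) with f | f
                                   exacts [(pair_lt_pair_right _ f).le, f ▸ le_rfl])).false
    rw [← pair_unpair t, k, List.length_append]
    exact ⟨b4 _ k1, b3 _ k1 (b4 _ k1)⟩
  have anc : ∀ n t i, i < (pr t).length → lev t = i + 1 + n → Relation.TransGen
      (fun a b => lev b ≠ 0 ∧ (pr b).getD (lev b - 1) 0 = a) ((pr t).getD i 0) t := fun n => by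
    induction n with
    | zero => exact fun t i _ k => .single ⟨by omega, by simp [k]⟩
    | succ n ih =>
      intro t i h k
      have := a2 t
      obtain ⟨-, -, -, x4, x5⟩ := a3 t (i + 1 + n) (by omega)
      have k1 := congrArg (·.getD i 0) x5
      have k2 := congrArg List.length x5
      simp only [List.getD_eq_getElem?_getD, List.getElem?_take, if_pos (show i < i + 1 + n by omega),
        List.length_take] at k1 k2
      simp only [← List.getD_eq_getElem?_getD] at k1 k2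
      exact .tail (k1 ▸ ih _ i (by omega) x4) ⟨by omega, by simp [k]⟩
  refine ⟨lev, v, fun s => (pr s).getD (lev s - 1) 0, fun s => nd s (lev s), fun s => (D s).2.2.2,
    fun s => G s.unpair.1 ((pr s).take (lev s) ++ [s]) ∧ v s ≠ 0 ∧ v s = V (s.unpair.1, lev s, nd s (lev s)),
    by fun_prop, fun s => ?_, fun s h => (a4 _ _ (a2 s)).trans (if_pos h), fun s h => ?_,
    fun s h => ⟨h.2.1, h.2.2, h.1.mono fun t k f => ?_⟩, fun e => ?_, fun s h => ?_⟩
  · beta_reduce
    conv_lhs => rw [d2]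
    dsimp only
    split_ifs with c
    exacts [rfl, by rw [g _ _ (by omega)]]
  · obtain ⟨x1, x2, x3, x4, -⟩ := a3 s (lev s - 1) (by have := a2 s; omega)
    exact ⟨x1, x2, x3, by beta_reduce; omega, (a4 _ _ (a2 s)).trans (if_neg h)⟩
  · obtain ⟨x1, x2⟩ := k f
    have k1 := congrArg (·.getD (lev s) 0) x1
    simp only [List.length_append, List.length_take, min_eq_left (a2 s), List.length_singleton] at x2 k1
    have k2 : (pr t).getD (lev s) 0 = s := by simpa [List.getElem?_take, a2 s] using k1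
    exact k2 ▸ anc (lev t - lev s - 1) t _ (by have := a2 t; omega) (by omega)
  · refine (key e [] (root e) (.of_forall (by simp)) rfl).imp_left fun ⟨s, x1, x2, x3, _, x5, x6⟩ =>
      ⟨s, ⟨by simpa [x2, x3] using x1, x5, ?_⟩, x2, x3⟩
    rw [x6, a4 _ _ (a2 s), x2, x3]; rfl
  · have k := key _ _ (D s).2.2.2.1 h.1 (by simp)
    simp only [List.length_append, List.length_take, min_eq_left (a2 s), List.length_singleton] at k
    refine k.imp_left fun ⟨t, x1, x2, x3, x4, x5, x6⟩ => ?_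
    have k1 : (pr t).getD (lev t - 1) 0 = s := by
      simpa [x3, List.getElem?_take, a2 s] using congrArg (·.getD (lev s) 0) x4
    exact ⟨t, ⟨by rwa [x2, x3, x4], x5, by rw [x6, a4 _ _ (a2 t), k1, x2, x3]; rfl⟩, by omega, k1⟩

end Pool.Agent.H.MP_fa5791_lc
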