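import Pool.Agent.H.MP_fa5791_lc.D
import Pool.Agent.H.MP_fa5791_lc.E

set_option autoImplicit false

/-! The construction near a ball without isolated points. -/

namespace Pool.Agent.H.MP_fa5791_lc

open Pool.Agent.Lib.helper21.PR Filter Topology Nat

attribute [local irreducible] Primrec Computable

variable {X : Type} [MetricSpace X]

structure Run (c : ℕ → X) (Y : ℕ → Bool) where
  (ae ν lev v ps A B C w g M L G p n h u j Gw : ℕ → ℕ)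
  (Good bt : ℕ → Prop)
  mv : ℕ → ℕ × ℕ × ℕ × ℕ × ℕ
  wa : ℕ → (ℕ × ℕ) × ℕ × ℕ × ℕ × ℕ
  c1 : CI O mv
  c2 : CI O wa
  t1 : ∀ e, e ≤ ν e
  t2 : ∀ e e' x, dist x (c (ae e)) < dy 1 (ν e) → dist x (c (ae e')) < dy 1 (ν e') → e = e'
  m1 : ∀ s, mv s = if v s = 0 then (0, 0, 0, 0, 0) else (C s, B s, 5 * 3 ^ lev s, g s + 2 * lev s + 3, G s)
  m2 : ∀ s, wa s = if v s ≠ 0 ∧ lev s = 1 then ((1, s.unpair.1), Gw s, p s, n s, h s) else ((0, 0), 0, 0, 0, 0)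
  m3 : ∀ s, M s + C s + j s ≤ M (s + 1) ∧ s + A s + B s + ae s.unpair.1 ≤ M s
  m4 : L 0 = 1 ∧ ∀ s, L (s + 1) = L s + G s
  m5 : ∀ s, dist (c (A s)) (c (ae s.unpair.1)) < dy 1 (ν s.unpair.1) →
    (L s * 2 ^ (g s + 2 * lev s + 3) : ℕ) * dist (c (A s)) (c (C s)) < 1 ∧
      L s * 2 ^ (g s + 2 * lev s + 3) < G s ∧ ∀ m ≤ M s, 1 < G s * dist (c m) (c (C s))
  m6 : ∀ s, lev s = 1 → ∀ m ≤ M s, 1 < Gw s * |dist (c m) (c (p s)) - dy (n s) (h s)|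
  r0 : ∀ s, lev s = 0 → A s = ae s.unpair.1 ∧ B s = ae s.unpair.1 ∧ g s = u s + ν s.unpair.1 + 3
  r1 : ∀ s, lev s ≠ 0 → ps s < s ∧ (ps s).unpair.1 = s.unpair.1 ∧ v (ps s) ≠ 0 ∧ lev (ps s) + 1 = lev s ∧
    g s = g (ps s) ∧ (bt s ∧ A s = C (ps s) ∧ B s = B (ps s) ∧ w s = w (ps s) ∨
      ¬ bt s ∧ A s = A (ps s) ∧ B s = C (ps s) ∧ w s = u s) ∧
    (lev s ≠ 1 → p s = p (ps s) ∧ n s = n (ps s) ∧ h s = h (ps s))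
  g0 : ∀ s, Good s → v s ≠ 0 ∧ ∀ᶠ t in atTop,
    t.unpair.1 = s.unpair.1 → Relation.TransGen (fun a b => lev b ≠ 0 ∧ ps b = a) s t
  g1 : ∀ s, Good s → lev s = 0 → Out Y s.unpair.1 (A s) (u s) (s.unpair.1 + 1) (j s)
  g2 : ∀ s, Good s → lev s = 1 → ¬ bt s ∧ ∃ u k, Out Y s.unpair.1 (A s) u k (p s) ∧ dy 1 k < dy (n s) (h s)
  g3 : ∀ s, Good s → lev s ≠ 0 → ∃ k, Out Y s.unpair.1 (C (ps s)) (u s) k (j s) ∧
    (bt s ∧ dd c (j s) (p s) + dy 1 k < dy (n s) (h s) ∧ lev s < 3 * w s ∨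
      ¬ bt s ∧ dy (n s) (h s) + dy 1 k < dd c (j s) (p s))
  s0 : ∀ e, (∃ s, Good s ∧ s.unpair.1 = e ∧ lev s = 0) ∨
    (∀ u j, ¬ Out Y e (ae e) u (e + 1) j) ∧ ∀ᶠ t in atTop, t.unpair.1 = e → v t = 0
  s1 : ∀ s, Good s → (∃ t, Good t ∧ lev t ≠ 0 ∧ ps t = s) ∨ (∀ᶠ t in atTop, t.unpair.1 = s.unpair.1 → v t = 0) ∧
    ∀ u k j, Out Y s.unpair.1 (C s) u k j → (lev s = 0 → ∀ u' j', Out Y s.unpair.1 (A s) u' k j' →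
      ¬ dy 4 k < dd c j j') ∧ (lev s ≠ 0 → ¬ (dd c j (p s) + dy 1 k < dy (n s) (h s) ∧ lev s + 1 < 3 * w s) ∧
        ¬ dy (n s) (h s) + dy 1 k < dd c j (p s))

abbrev Z := ℕ × (ℕ × ℕ × (ℕ × ℕ × ℕ × ℕ × ℕ) × (ℕ × ℕ) × ℕ × ℕ × ℕ × ℕ) × ℕ ×
  (ℕ × ℕ × ℕ × ℕ × ℕ × ℕ × ℕ × ℕ) × ℕ

theorem run_ex {c : ℕ → X} [Fact (Pres c)] {Y : ℕ → Bool} (hY : Low Y) {o r : ℕ}
    (ho : ∀ x, dist x (c o) < dy 1 r → (𝓝[≠] x).NeBot) : Nonempty (Run c Y) := by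
  obtain ⟨ae, ν, a1, a2, a3, a4, a5⟩ := ex_ter ho
  obtain ⟨nw, b1, b2⟩ := ex_nw ho
  obtain ⟨ws, c1, c2⟩ := ex_ws (c := c)
  have := out_ri Y
  let R : ℕ × ℕ × ℕ × ℕ × ℕ × ℕ × ℕ × ℕ × ℕ × ℕ → ℕ → ℕ → ℕ → ℕ → Prop := fun z b u k j =>
    z.2.1 = 0 ∧ Out Y z.1 z.2.2.1 u (z.1 + 1) j ∨ Out Y z.1 z.2.2.2.2.1 u k j ∧
      (z.2.1 = 1 ∧ b ≠ 0 ∧ Out Y z.1 z.2.2.1 (b - 1).unpair.1 k (b - 1).unpair.2 ∧
        dy 4 k < dd c j (b - 1).unpair.2 ∨ 1 < z.2.1 ∧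
      (b = 0 ∧ dd c j z.2.2.2.2.2.2.2.1 + dy 1 k < dy z.2.2.2.2.2.2.2.2.1 z.2.2.2.2.2.2.2.2.2 ∧
        z.2.1 < 3 * z.2.2.2.2.2.1 ∨
      b ≠ 0 ∧ dy z.2.2.2.2.2.2.2.2.1 z.2.2.2.2.2.2.2.2.2 + dy 1 k < dd c j z.2.2.2.2.2.2.2.1))
  obtain ⟨W, d1, d2⟩ := hY.wit (R := fun z x => R z x.unpair.1 x.unpair.2.unpair.1
    x.unpair.2.unpair.2.unpair.1 x.unpair.2.unpair.2.unpair.2) (by unfold R; fun_prop)
  choose V d2 d3 d4 using d2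
  obtain ⟨fb, f1, e1⟩ : ∃ f : Z → ℕ, CI O f ∧ ∀ z, f z = (z.2.2.2.2 - 1).unpair.1 := ⟨_, by fun_prop, fun _ => rfl⟩
  obtain ⟨fu, f2, e2⟩ : ∃ f : Z → ℕ, CI O f ∧ ∀ z, f z = (z.2.2.2.2 - 1).unpair.2.unpair.1 :=
    ⟨_, by fun_prop, fun _ => rfl⟩
  obtain ⟨fj, f3, e3⟩ : ∃ f : Z → ℕ, CI O f ∧ ∀ z, f z = (z.2.2.2.2 - 1).unpair.2.unpair.2.unpair.2 :=
    ⟨_, by fun_prop, fun _ => rfl⟩
  obtain ⟨fA, f4, e4⟩ : ∃ f : Z → ℕ, CI O f ∧ ∀ z, f z = if fb z = 0 then z.2.2.2.1.2.2.1 else z.2.2.2.1.1 :=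
    ⟨_, by fun_prop, fun _ => rfl⟩
  obtain ⟨fB, f5, e5⟩ : ∃ f : Z → ℕ, CI O f ∧ ∀ z, f z = if fb z = 0 then z.2.2.2.1.2.1 else z.2.2.2.1.2.2.1 :=
    ⟨_, by fun_prop, fun _ => rfl⟩
  obtain ⟨fg, f6, e6⟩ : ∃ f : Z → ℕ, CI O f ∧ ∀ z, f z = if z.2.2.1 = 0 then fu z + ν z.1.unpair.1 + 3 else
    z.2.2.2.1.2.2.2.2.1 := ⟨_, by fun_prop, fun _ => rfl⟩
  obtain ⟨fM, f7, e7⟩ : ∃ f : Z → ℕ, CI O f ∧ ∀ z, f z = z.2.1.1 + (z.1 + fA z + fB z + ae z.1.unpair.1) :=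
    ⟨_, by fun_prop, fun _ => rfl⟩
  obtain ⟨fT, f8, e8⟩ : ∃ f : Z → ℕ × ℕ, CI O f ∧ ∀ z, f z =
    nw (fA z, z.2.1.2.1 * 2 ^ (fg z + 2 * z.2.2.1 + 3), fM z) := ⟨_, by fun_prop, fun _ => rfl⟩
  obtain ⟨fW, f9, e9⟩ : ∃ f : Z → ℕ × ℕ × ℕ, CI O f ∧ ∀ z, f z =
    ws ((fb z - 1).unpair.2, (z.2.2.2.2 - 1).unpair.2.unpair.2.unpair.1, fM z) := ⟨_, by fun_prop, fun _ => rfl⟩
  obtain ⟨fP, f0, e0⟩ : ∃ f : Z → ℕ × ℕ × ℕ, CI O f ∧ ∀ z, f z = if z.2.2.1 = 1 then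
    ((fb z - 1).unpair.2, (fW z).2) else z.2.2.2.1.2.2.2.2.2 := ⟨_, by fun_prop, fun _ => rfl⟩
  let act := fun z : Z => ((fA z, fB z, (fT z).1, if fb z = 0 then z.2.2.2.1.2.2.2.1 else fu z, fg z, fP z),
    fM z + (fT z).1 + fj z, z.2.1.2.1 + (fT z).2, if z.2.2.2.2 = 0 then (0, 0, 0, 0, 0) else
      ((fT z).1, fB z, 5 * 3 ^ z.2.2.1, fg z + 2 * z.2.2.1 + 3, (fT z).2),
    if z.2.2.2.2 ≠ 0 ∧ z.2.2.1 = 1 then ((1, z.1.unpair.1), (fW z).1, fP z) else ((0, 0), 0, 0, 0, 0))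
  have ha : CI O act := by unfold act; fun_prop
  obtain ⟨lev, v, ps, par, out, Good, k1, k2, k3, k4, k5, k6, k7⟩ := engine
    (root := fun e => (ae e, ae e, ae e, 0, 0, 0, 0, 0)) (0, 1, (0, 0, 0, 0, 0), (0, 0), 0, 0, 0, 0)
    (act := fun s γ i σ v => act (s, γ, i, σ, v)) (by fun_prop) ha d1 d2
  obtain ⟨z, ez⟩ : ∃ z : ℕ → Z, ∀ s, z s = (s, if s = 0 then (0, 1, (0, 0, 0, 0, 0), (0, 0), 0, 0, 0, 0) else
    (out (s - 1)).2, lev s, par s, v s) := ⟨_, fun _ => rfl⟩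
  simp only [← ez] at k2
  have z1 : ∀ s, (z s).1 = s ∧ (z s).2.2.1 = lev s ∧ (z s).2.2.2.1 = par s ∧ (z s).2.2.2.2 = v s ∧
    (z (s + 1)).2.1 = (act (z s)).2 := fun s => by simp [ez s, ez (s + 1), k2]
  have z2 : ∀ s, lev s ≠ 0 → par s = (act (z (ps s))).1 := fun s h => by rw [(k4 s h).2.2.2.2, k2]
  have z3 : ∀ s, Good s → R (s.unpair.1, lev s, par s) (fb (z s)) (fu (z s))
      (v s - 1).unpair.2.unpair.2.unpair.1 (fj (z s)) := fun s h => by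
    have := d4 _ ((k5 s h).2.1 ▸ (k5 s h).1)
    rwa [← (k5 s h).2.1, e1, e2, e3, (z1 s).2.2.2.1] at *
  refine ⟨ae, ν, lev, v, ps, fun s => fA (z s), fun s => fB (z s), fun s => (fT (z s)).1,
    fun s => (act (z s)).1.2.2.2.1, fun s => fg (z s), fun s => fM (z s), fun s => (z s).2.1.2.1,
    fun s => (fT (z s)).2, fun s => (fP (z s)).1, fun s => (fP (z s)).2.1, fun s => (fP (z s)).2.2,
    fun s => fu (z s), fun s => fj (z s), fun s => (fW (z s)).1, Good, fun s => fb (z s) = 0,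
    fun s => (out s).2.2.2.1, fun s => (out s).2.2.2.2, by fun_prop, by fun_prop, a3, a5, fun s => ?_,
    fun s => ?_, fun s => ?_, ⟨by simp [ez], fun s => by rw [(z1 s).2.2.2.2]⟩, fun s h => ?_, fun s h => ?_,
    fun s h => ?_, fun s h => ?_, fun s h => ⟨(k5 s h).1, (k5 s h).2.2⟩, fun s h i => ?_, fun s h i => ?_,
    fun s h i => ?_, fun e => (k6 e).imp_right fun h => ⟨fun u j k => ?_, h.2⟩,
    fun s h => (k7 s h).imp_right fun h => ⟨h.2, fun u k j f => ⟨fun i u' j' f' f2 => ?_, fun i =>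
      ⟨fun f2 => ?_, fun f2 => ?_⟩⟩⟩⟩
  · simp only [k2, act, z1]
  · simp only [k2, act, z1]
  · rw [e7 (z (s + 1)), e7 (z s), (z1 s).2.2.2.2, (z1 s).1]
    simp only [act, e7 (z s), (z1 s).1]
    omega
  · have := b2 _ ((z s).2.1.2.1 * 2 ^ (fg (z s) + 2 * lev s + 3)) (fM (z s)) (a4 _ _ h)
    rwa [e8, (z1 s).2.1]
  · have := (c2 (fb (z s) - 1).unpair.2 (v s - 1).unpair.2.unpair.2.unpair.1 (fM (z s))).2.2
    rwa [e0, e9, (z1 s).2.1, if_pos h, (z1 s).2.2.2.1]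
  · simp [e4, e5, e6, z1, k3 s h, h]
  · obtain ⟨x1, x2, x3, x4, -⟩ := k4 s h
    refine ⟨x1, x2, x3, x4, by rw [e6, (z1 s).2.1, if_neg h, (z1 s).2.2.1, z2 s h], ?_, fun i => ?_⟩
    · by_cases k : fb (z s) = 0 <;> simp [k, e4 (z s), e5 (z s), z1, z2 s h, act]
    · simp [e0 (z s), z1, i, z2 s h, act]
  · have := z3 s h
    simpa [R, i, k3 s i, e4, z1] using this
  · have := z3 s h
    simp only [R, i, one_ne_zero, false_and, false_or, lt_irrefl, or_false, true_and] at this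
    refine ⟨this.2.1, (fb (z s) - 1).unpair.1, (v s - 1).unpair.2.unpair.2.unpair.1, ?_⟩
    rw [e0, e4, e9, (z1 s).2.1, if_pos i, if_neg this.2.1, (z1 s).2.2.2.1, (z1 s).2.2.1]
    exact ⟨this.2.2.1, (c2 _ _ _).1⟩
  · obtain ⟨x1, x2⟩ := (z3 s h).resolve_left fun k => i k.1
    refine ⟨_, by simpa [z2 s i, act] using x1, x2.elim (fun x => .inr ⟨x.2.1, ?_⟩) fun x => ?_⟩
    · have := (c2 (fb (z s) - 1).unpair.2 (v s - 1).unpair.2.unpair.2.unpair.1 (fM (z s))).2.1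
      have e := x.2.2.2
      rw [e0, e9, (z1 s).2.1, if_pos x.1, (z1 s).2.2.2.1]
      simp only [dy] at *
      push_cast at *
      linarith [(by ring : (4 : ℝ) / 2 ^ _ = 3 / 2 ^ (v s - 1).unpair.2.unpair.2.unpair.1 + 1 / 2 ^ _)]
    · rw [e0, (z1 s).2.1, if_neg x.1.ne', (z1 s).2.2.1]
      exact x.2.imp_left fun y => ⟨y.1, y.2.1, by simpa [act, y.1, z1] using y.2.2⟩
  · exact d3 _ h.1 (pair 0 (pair u (pair 0 j))) (.inl (by simpa using k))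
  · exact d3 _ h.1 (pair (pair u' j' + 1) (pair u (pair k j))) (.inr (by simpa [k2, act, i, f, f'] using f2))
  · exact d3 _ h.1 (pair 0 (pair u (pair k j))) (.inr (by simpa [k2, act, i, f, Nat.pos_iff_ne_zero] using f2))
  · exact d3 _ h.1 (pair 1 (pair u (pair k j))) (.inr (by simpa [k2, act, i, f, Nat.pos_iff_ne_zero] using f2))

end Pool.Agent.H.MP_fa5791_lc
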