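import Pool.Agent.H.MP_fa5791_lc.F

set_option autoImplicit false

/-! Verification of the construction near a ball without isolated points. -/

namespace Pool.Agent.H.MP_fa5791_lc

open Pool.Agent.Lib.helper21.PR Filter Topology

theorem unif {β : Type} {S : ℕ → β → Prop} {Φ : β → ℕ → Prop} (K : ℕ)
    (h1 : ∀ e ≥ K, ∃ y, S e y ∧ ∀ t : ℕ, t.unpair.1 = e → Φ y t)
    (h2 : ∀ e, ∃ y, S e y ∧ ∀ᶠ t : ℕ in atTop, t.unpair.1 = e → Φ y t) :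
    ∃ y : ℕ → β, (∀ e, S e (y e)) ∧ ∃ T, ∀ t ≥ T, Φ (y t.unpair.1) t := by
  have : ∀ e, ∃ y, S e y ∧ (∀ᶠ t : ℕ in atTop, t.unpair.1 = e → Φ y t) ∧
      (K ≤ e → ∀ t : ℕ, t.unpair.1 = e → Φ y t) := fun e => by
    by_cases c : K ≤ e
    · exact (h1 e c).imp fun y h => ⟨h.1, .of_forall h.2, fun _ => h.2⟩
    · exact (h2 e).imp fun y h => ⟨h.1, h.2, fun k => (c k).elim⟩
  choose y a b d using this
  exact ⟨y, a, eventually_atTop.1 (((eventually_all_finite (Set.finite_Iio K)).2 fun e _ => b e).mono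
    fun t h => (lt_or_ge t.unpair.1 K).elim (fun k => h _ k rfl) fun k => d _ k t rfl)⟩

theorem dy_anti {i j : ℕ} (h : i ≤ j) : dy 1 j ≤ dy 1 i := by unfold dy; gcongr; simp

theorem dy_small {ε : ℝ} (h : 0 < ε) : ∃ K, dy 1 K < ε := by
  simpa [dy] using exists_pow_lt_of_lt_one h one_half_lt_one

namespace Run

variable {X : Type} [MetricSpace X] {c : ℕ → X} {Y : ℕ → Bool} (ρ : Run c Y)

noncomputable def m (t : ℕ) : Mv X := mkv c (ρ.mv t)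
noncomputable def δ (s : ℕ) : ℝ := (3 / 4) ^ ρ.lev s / 2 ^ ρ.g s
noncomputable def η (s : ℕ) : ℝ := dy 1 (ρ.g s + 2 * ρ.lev s + 3)
def T (e : ℕ) (x : X) : Prop := dist x (c (ρ.ae e)) < dy 1 (ρ.ν e)
def Up (a b : ℕ) : Prop := ρ.lev b ≠ 0 ∧ ρ.ps b = a
def P (y : X) (r : ℝ) (s : ℕ) : Prop := dist (c (ρ.A s)) y + 2 * ρ.η s ≤ r ∧
  dist (c (ρ.B s)) y + 2 * ρ.η s ≤ r ∧ dist (c (ρ.C s)) y + 2 * ρ.η s ≤ r
def Q (y : X) (r : ℝ) (s : ℕ) : Prop := ∀ t ≥ s, DD ρ.m t (c (ρ.A s)) y + 3 * ρ.δ s ≤ r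

theorem l_pos (t : ℕ) : 0 < (ρ.m t).l := by simp only [m, mkv, dy]; positivity
theorem H_pos (t : ℕ) : 0 ≤ (ρ.m t).H := by simp only [m, mkv, dy]; positivity
theorem η_pos (s : ℕ) : 0 < ρ.η s := by simp [η, dy]
theorem δ_pos (s : ℕ) : 0 < ρ.δ s := by unfold δ; positivity
theorem pm (t : ℕ) : PM (DD ρ.m t) := DD_pm ρ.l_pos t

theorem η_le (s : ℕ) : 8 * ρ.η s ≤ ρ.δ s ∧ ρ.δ s ≤ dy 1 (ρ.g s) ∧ 8 * ρ.η s ≤ dy 1 (ρ.lev s) := by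
  have a : (1 : ℝ) ≤ 3 ^ ρ.lev s := one_le_pow₀ (by norm_num)
  have b : (3 : ℝ) ^ ρ.lev s ≤ 4 ^ ρ.lev s := by gcongr; norm_num
  have d := dy_anti (show ρ.lev s ≤ ρ.g s + 2 * ρ.lev s by omega)
  simp only [η, δ, dy, pow_add, pow_mul, div_pow] at d ⊢
  norm_num at d ⊢
  refine ⟨?_, ?_, by linarith⟩ <;> field_simp <;> linarith

theorem mv1 {s : ℕ} (h : ρ.v s ≠ 0) : (ρ.m s).c = c (ρ.C s) ∧ (ρ.m s).b = c (ρ.B s) ∧
    (ρ.m s).H = 5 / 8 * ρ.δ s ∧ (ρ.m s).l = 5 / 8 * ρ.δ s ∧ (ρ.m s).G = ρ.G s := by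
  have : max (5 * 3 ^ ρ.lev s) 1 = 5 * 3 ^ ρ.lev s := max_eq_left (Nat.succ_le_of_lt (by positivity))
  simp only [m, mkv, ρ.m1, if_neg h, this, dy, δ, pow_add, pow_mul, div_pow, true_and, and_true, and_self]
  push_cast
  field_simp
  norm_num

theorem mv0 {s : ℕ} (h : ρ.v s = 0) : (ρ.m s).c = (ρ.m s).b ∧ ∀ x, (ρ.m s).B x = 0 := by
  simp [m, mkv, ρ.m1, h, Mv.B, ts, dy]

theorem L_eq (t : ℕ) : 1 + ∑ u ∈ Finset.range t, (ρ.m u).G ≤ ρ.L t := by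
  induction t with
  | zero => simp [ρ.m4.1]
  | succ t ih =>
    have : (ρ.m t).G ≤ ρ.G t := by simp only [m, mkv, ρ.m1]; split_ifs <;> simp
    rw [Finset.sum_range_succ, ρ.m4.2]; omega

theorem near {t : ℕ} {x y : X} (h : (ρ.L t * 2 ^ (ρ.g t + 2 * ρ.lev t + 3) : ℕ) * dist x y < 1) :
    dist x y ≤ ρ.η t ∧ DD ρ.m t x y ≤ ρ.η t := by
  have a : ρ.L t * dist x y ≤ ρ.η t := by
    rw [η, dy, le_div_iff₀ (by positivity)]; push_cast at h ⊢; linarith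
  have b : (1 : ℝ) ≤ ρ.L t := by exact_mod_cast le_self_add.trans (ρ.L_eq t)
  exact ⟨(le_mul_of_one_le_left dist_nonneg b).trans a, (DD_lip t x y).trans (le_trans (by
    gcongr; exact ρ.L_eq t) a)⟩

theorem up {s : ℕ} (h : ρ.lev s ≠ 0) : 4 * ρ.η s = ρ.η (ρ.ps s) ∧ ρ.δ s = 3 / 4 * ρ.δ (ρ.ps s) := by
  obtain ⟨-, -, -, a, b, -⟩ := ρ.r1 s h
  simp only [η, δ, dy, ← a, b, pow_add, mul_add]
  constructor <;> field_simp
  norm_num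

theorem P_step {y : X} {r : ℝ} {s : ℕ} (h : ρ.lev s ≠ 0) (k : ρ.P y r (ρ.ps s))
    (a : ρ.T s.unpair.1 (c (ρ.A s))) : ρ.P y r s := by
  have := (ρ.near (ρ.m5 s a).1).1
  have := (ρ.up h).1
  have := ρ.η_pos s
  have := dist_triangle_left (c (ρ.C s)) y (c (ρ.A s))
  obtain ⟨k1, k2, k3⟩ := k
  obtain ⟨-, -, -, -, -, ⟨-, b, d, -⟩ | ⟨-, b, d, -⟩, -⟩ := ρ.r1 s h <;> simp only [← b, ← d] at k1 k2 k3 <;>
    exact ⟨by linarith, by linarith, by linarith⟩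

theorem inv (s : ℕ) : ρ.ν s.unpair.1 + 3 ≤ ρ.g s ∧ ρ.P (c (ρ.ae s.unpair.1)) (dy 1 (ρ.ν s.unpair.1)) s := by
  induction s using Nat.strong_induction_on with | _ s ih => ?_
  by_cases h : ρ.lev s = 0
  · obtain ⟨a, b, d⟩ := ρ.r0 s h
    have := ρ.η_le s
    have := ρ.η_pos s
    have := dy_anti (show ρ.ν s.unpair.1 ≤ ρ.g s by omega)
    have := (ρ.near (ρ.m5 s (by rw [a, dist_self]; linarith)).1).1
    rw [P, b, dist_comm (c (ρ.C s)), ← a, dist_self]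
    exact ⟨by omega, by linarith, by linarith, by linarith⟩
  · obtain ⟨a, b, -, -, d, f, -⟩ := ρ.r1 s h
    obtain ⟨i, j⟩ := ih _ a
    rw [b] at i j
    have := ρ.η_pos (ρ.ps s)
    exact ⟨d ▸ i, ρ.P_step h j (by
      rcases f with ⟨-, f, -⟩ | ⟨-, f, -⟩ <;> rw [T, f] <;> linarith [j.1, j.2.2])⟩

theorem TA (s : ℕ) : ρ.T s.unpair.1 (c (ρ.A s)) := by
  unfold T; linarith [(ρ.inv s).2.1, ρ.η_pos s]

theorem δ_le (s : ℕ) : 8 * ρ.δ s ≤ dy 1 s.unpair.1 := by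
  have := dy_anti ((Nat.add_le_add_right (ρ.t1 _) 3).trans (ρ.inv s).1)
  have := (ρ.η_le s).2.1
  simp only [dy, pow_add] at *
  linarith [(by ring : ((1 : ℕ) : ℝ) / 2 ^ s.unpair.1 = 8 * ((1 : ℕ) / (2 ^ s.unpair.1 * 2 ^ 3)))]

theorem H_le (s : ℕ) (h : ρ.v s ≠ 0) : (ρ.m s).H ≤ 1 := by
  have : dy 1 s.unpair.1 ≤ 1 := (dy_anti s.unpair.1.zero_le).trans_eq (by simp [dy])
  linarith [(ρ.mv1 h).2.2.1, ρ.δ_le s, ρ.δ_pos s]

theorem supp {t : ℕ} {x : X} (h : (ρ.m t).B x ≠ 0) : ρ.v t ≠ 0 ∧ ρ.G t * dist x (c (ρ.C t)) < 1 := by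
  have a : ρ.v t ≠ 0 := fun k => h ((ρ.mv0 k).2 x)
  refine ⟨a, lt_of_not_ge fun k => h (max_eq_right ?_)⟩
  rw [(ρ.mv1 a).1, (ρ.mv1 a).2.2.2.2]
  linarith [ρ.H_le t a]

theorem supp' {t : ℕ} {x : X} (h : (ρ.m t).B x ≠ 0) :
    dist x (c (ρ.C t)) ≤ ρ.η t ∧ DD ρ.m t x (c (ρ.C t)) ≤ ρ.η t :=
  ρ.near (lt_of_le_of_lt (by gcongr; exact (ρ.m5 t (ρ.TA t)).2.1.le) (ρ.supp h).2)

theorem P.supp {ρ : Run c Y} {t : ℕ} {x y : X} {r : ℝ} (k : ρ.P y r t) (h : (ρ.m t).B x ≠ 0) : dist x y < r := by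
  linarith [k.2.2, (ρ.supp' h).1, ρ.η_pos t, dist_triangle x (c (ρ.C t)) y]

theorem old {t i : ℕ} (h : i ≤ ρ.M t) : (ρ.m t).B (c i) = 0 :=
  not_not.1 fun k => (ρ.supp k).2.not_gt ((ρ.m5 t (ρ.TA t)).2.2 i h)

theorem M_le {s t : ℕ} (h : s < t) : ρ.M s + ρ.C s + ρ.j s ≤ ρ.M t := by
  induction h with
  | refl => exact (ρ.m3 s).1
  | @step t _ ih => exact ih.trans (le_self_add.trans (le_self_add.trans (ρ.m3 t).1))

theorem F1 {s t : ℕ} (h : ρ.v s ≠ 0) (a : s < t)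
    (k : ∀ u < t, DD ρ.m u (ρ.m u).c (ρ.m u).b ≤ (ρ.m u).H + (ρ.m u).l) :
    DD ρ.m t (c (ρ.C s)) (c (ρ.A s)) ≤ 3 / 4 * ρ.δ s ∧ DD ρ.m t (c (ρ.C s)) (c (ρ.B s)) ≤ 3 / 4 * ρ.δ s := by
  have e := (ρ.m3 s).2
  obtain ⟨b1, b2, b3, b4, -⟩ := ρ.mv1 h
  have f : ∀ i ≤ ρ.M s, DD ρ.m t (c (ρ.C s)) (c i) = DD ρ.m (s + 1) (c (ρ.C s)) (c i) := fun i hi =>
    DD_fix' ρ.l_pos ρ.H_pos a k fun u j _ =>
      ⟨ρ.old (by have := ρ.M_le j; omega), ρ.old (by have := ρ.M_le j; omega)⟩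
  rw [f _ (by omega), f _ (by omega)]
  have := DD_le (m := ρ.m) s (c (ρ.C s)) (c (ρ.A s))
  rw [ρ.old (i := ρ.A s) (by omega), sub_zero, abs_of_nonneg (B_le _ (ρ.H_pos s) _).1, (ρ.pm s).symm] at this
  have g := DD_cb ρ.l_pos s
  rw [b1, b2] at g
  constructor <;> linarith [(B_le _ (ρ.H_pos s) (c (ρ.C s))).2, (ρ.near (ρ.m5 s (ρ.TA s)).1).2, ρ.η_le s,
    ρ.δ_pos s]

theorem F0 {s t : ℕ} (a : s ≤ t) (k : ∀ u < t, DD ρ.m u (ρ.m u).c (ρ.m u).b ≤ (ρ.m u).H + (ρ.m u).l) :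
    DD ρ.m t (c (ρ.A s)) (c (ρ.B s)) ≤ ρ.δ s := by
  by_cases h : ρ.lev s = 0
  · rw [(ρ.r0 s h).1, (ρ.r0 s h).2.1, (ρ.pm t).self]; exact (ρ.δ_pos s).le
  · obtain ⟨b, -, d, -, -, f, -⟩ := ρ.r1 s h
    have := ρ.F1 d (b.trans_le a) k
    rw [(ρ.up h).2]
    rcases f with ⟨-, f, g, -⟩ | ⟨-, f, g, -⟩ <;> rw [f, g]
    exacts [this.2, (ρ.pm t).symm _ _ ▸ this.1]

theorem K (s : ℕ) : DD ρ.m s (ρ.m s).c (ρ.m s).b ≤ (ρ.m s).H + (ρ.m s).l := by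
  induction s using Nat.strong_induction_on with | _ s ih => ?_
  by_cases h : ρ.v s = 0
  · rw [(ρ.mv0 h).1, (ρ.pm s).self]; linarith [ρ.l_pos s, ρ.H_pos s]
  · obtain ⟨b1, b2, b3, b4, -⟩ := ρ.mv1 h
    rw [b1, b2, b3, b4]
    linarith [ρ.F0 le_rfl ih, (ρ.near (ρ.m5 s (ρ.TA s)).1).2, ρ.η_le s, ρ.δ_pos s,
      (ρ.pm s).tri (c (ρ.C s)) (c (ρ.A s)) (c (ρ.B s)), (ρ.pm s).symm (c (ρ.C s)) (c (ρ.A s))]

theorem Q_step {y : X} {r : ℝ} {s : ℕ} (h : ρ.lev s ≠ 0) (k : ρ.Q y r (ρ.ps s)) : ρ.Q y r s := fun t a => by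
  obtain ⟨b, -, d, -, -, f, -⟩ := ρ.r1 s h
  have := (ρ.F1 d (b.trans_le a) fun u _ => ρ.K u).1
  have := k t (b.le.trans a)
  have := (ρ.pm t).tri (c (ρ.C (ρ.ps s))) (c (ρ.A (ρ.ps s))) y
  rcases f with ⟨-, f, -⟩ | ⟨-, f, -⟩ <;> rw [f] <;> linarith [(ρ.up h).2, ρ.δ_pos s]

theorem desc {Φ : ℕ → Prop} (h : ∀ s, ρ.lev s ≠ 0 → Φ (ρ.ps s) → Φ s) {s t : ℕ}
    (a : Relation.TransGen (fun a b => ρ.lev b ≠ 0 ∧ ρ.ps b = a) s t) (b : Φ s) : Φ t := by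
  induction a with
  | single k => exact h _ k.1 (k.2 ▸ b)
  | tail _ k ih => exact h _ k.1 (k.2 ▸ ih)

theorem Q_self (s : ℕ) : ρ.Q (c (ρ.A s)) (3 * ρ.δ s) s := fun t _ => by simp [(ρ.pm t).self]

theorem Q_root (s : ℕ) : ρ.Q (c (ρ.ae s.unpair.1)) (dy 1 s.unpair.1) s := by
  induction s using Nat.strong_induction_on with | _ s ih => ?_
  by_cases h : ρ.lev s = 0
  · exact fun t _ => by rw [(ρ.r0 s h).1, (ρ.pm t).self]; linarith [ρ.δ_le s, ρ.δ_pos s]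
  · exact ρ.Q_step h ((ρ.r1 s h).2.1 ▸ ih _ (ρ.r1 s h).1)

theorem dich (e n : ℕ) : (∀ᶠ t : ℕ in atTop, t.unpair.1 = e → ρ.v t = 0) ∨
    ∃ s, ρ.Good s ∧ s.unpair.1 = e ∧ ρ.lev s = n := by
  induction n with
  | zero => exact (ρ.s0 e).symm.imp_left And.right
  | succ n ih =>
    refine ih.elim .inl fun ⟨s, a, b, d⟩ => (ρ.s1 s a).symm.imp (b ▸ And.left) fun ⟨t, f, g, h⟩ => ?_
    obtain ⟨-, i, -, j, -⟩ := ρ.r1 t g
    exact ⟨t, f, by rw [← i, h, b], by rw [← j, h, d]⟩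

theorem dich2 (e n : ℕ) : (∀ᶠ t : ℕ in atTop, t.unpair.1 = e → ρ.v t = 0) ∨
    ∃ s, ρ.Good s ∧ s.unpair.1 = e ∧ n < ρ.lev s ∧ ¬ ρ.bt s := by
  refine or_iff_not_imp_left.2 fun h => ?_
  have : ∀ k s, ρ.Good s → s.unpair.1 = e → n < ρ.lev s → 3 * ρ.w s ≤ ρ.lev s + k →
      ∃ s, ρ.Good s ∧ s.unpair.1 = e ∧ n < ρ.lev s ∧ ¬ ρ.bt s := fun k => by
    induction k using Nat.strong_induction_on with | _ k ih => ?_
    intro s a b d f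
    obtain ⟨t, g, i, rfl⟩ := (ρ.s1 s a).resolve_right fun k => h (b ▸ k.1)
    obtain ⟨-, x1, -, x2, -, x3, -⟩ := ρ.r1 t i
    by_cases j : ρ.bt t
    · obtain ⟨_, -, x4⟩ := ρ.g3 t g i
      have := (x4.resolve_right fun k => k.1 j).2.2
      have := (x3.resolve_right fun k => k.1 j).2.2.2
      exact ih (k - 1) (by omega) t g (x1.symm.trans b) (by omega) (by omega)
    · exact ⟨t, g, x1.symm.trans b, by omega, j⟩
  obtain ⟨s, a, b, d⟩ := (ρ.dich e (n + 1)).resolve_left h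
  exact this _ s a b (by omega) le_add_self

theorem n2 [CompleteSpace X] [hc : Fact (Pres c)] : ∃ (N : Type) (_ : MetricSpace N), CompleteSpace N ∧
    ∃ h : X ≃ₜ N, Pres (h ∘ c) ∧ ∀ x y, Tendsto (DD ρ.m · x y) atTop (𝓝 (dist (h x) (h y))) := by
  have tp : ∀ e, ρ.T e (c (ρ.ae e)) := fun e => by simp [T, dy]
  obtain ⟨N, _, a, h, b⟩ := moves ρ.l_pos ρ.H_pos ρ.K (fun κ hκ => by
    obtain ⟨K, k⟩ := dy_small (half_pos hκ)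
    obtain ⟨y, -, T, b⟩ := unif (S := fun _ _ => True) (Φ := fun y t => ρ.v t ≠ 0 → ρ.P y (κ / 2) t) K
      (fun e h => ⟨c (ρ.ae e), trivial, fun t a _ => by
        have := dy_anti (h.trans (ρ.t1 e))
        obtain ⟨-, x1, x2, x3⟩ := a ▸ ρ.inv t
        exact ⟨by linarith, by linarith, by linarith⟩⟩)
      fun e => (ρ.dich2 e K).elim (fun h => ⟨c 0, trivial, h.mono fun t h a b => (b (h a)).elim⟩)
        fun ⟨s, a, b, d, f⟩ => ⟨c (ρ.A s), trivial, (ρ.g0 s a).2.mono fun t h i _ =>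
          ρ.desc (fun s h k => ρ.P_step h k (ρ.TA s)) (h (i.trans b.symm)) (by
            obtain ⟨-, -, -, -, -, x, -⟩ := ρ.r1 s (by omega)
            obtain ⟨-, x1, x2, -⟩ := x.resolve_left fun k => f k.1
            have := (ρ.near (ρ.m5 _ (ρ.TA (ρ.ps s))).1).1
            rw [← x1, ← x2, dist_comm] at this
            have := (ρ.near (ρ.m5 _ (ρ.TA s)).1).1
            rw [dist_comm] at this
            have := ρ.η_le s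
            have := ρ.η_pos s
            have := dy_anti d.le
            have := (ρ.up (s := s) (by omega)).1
            exact ⟨by rw [dist_self]; linarith, by linarith, by linarith⟩)⟩
    refine ⟨T, fun x x' => x = x' ∨ ∃ e, (ρ.T e x ∧ dist x (y e) < κ / 2) ∧ ρ.T e x' ∧ dist x' (y e) < κ / 2,
      ⟨fun _ => .inl rfl, fun h => h.imp .symm fun ⟨e, h⟩ => ⟨e, h.symm⟩, ?_⟩, ?_, fun t ht => ?_⟩
    · rintro x1 x2 x3 (rfl | ⟨e, a1, a2⟩) (rfl | ⟨e', b1, b2⟩)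
      exacts [.inl rfl, .inr ⟨e', b1, b2⟩, .inr ⟨e, a1, a2⟩, .inr ⟨e, a1, ρ.t2 _ _ _ b1.1 a2.1 ▸ b2⟩]
    · rintro x x' (rfl | ⟨e, a1, a2⟩)
      · rw [dist_self]; exact hκ.le
      · linarith [dist_triangle_right x x' (y e), a1.2, a2.2]
    by_cases h : ρ.v t = 0
    · exact ⟨.inl (ρ.mv0 h).1.symm, fun x k => (k ((ρ.mv0 h).2 x)).elim⟩
    have i := (ρ.inv t).2
    have j := b t ht h
    have := ρ.η_pos t
    have f : ρ.T t.unpair.1 (c (ρ.C t)) ∧ dist (c (ρ.C t)) (y t.unpair.1) < κ / 2 :=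
      ⟨by unfold Run.T; linarith [i.2.2], by linarith [j.2.2]⟩
    rw [(ρ.mv1 h).1, (ρ.mv1 h).2.1]
    exact ⟨.inr ⟨_, ⟨by unfold Run.T; linarith [i.2.1], by linarith [j.2.1]⟩, f⟩,
      fun x k => .inr ⟨_, ⟨i.supp k, j.supp k⟩, f⟩⟩) (fun ε hε => by
    obtain ⟨K, k⟩ := dy_small hε
    obtain ⟨n, hn⟩ := exists_pow_lt_of_lt_one (show 0 < ε / 3 by positivity) (show (3 / 4 : ℝ) < 1 by norm_num)
    obtain ⟨y, a, T, b⟩ := unif (S := ρ.T) (Φ := fun y t => (ρ.m t).B y = 0 ∧ (ρ.v t ≠ 0 → ρ.Q y ε t)) K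
      (fun e h => ⟨_, tp e, fun t a => ⟨ρ.old (a ▸ le_add_self.trans (ρ.m3 t).2), fun _ u i => by
        linarith [a ▸ ρ.Q_root t u i, dy_anti h]⟩⟩)
      fun e => (ρ.dich e n).elim (fun h => ⟨_, tp e, h.mono fun t h a =>
        ⟨(ρ.mv0 (h a)).2 _, fun b => (b (h a)).elim⟩⟩) fun ⟨s, a, b, d⟩ => ⟨_, b ▸ ρ.TA s,
          ((ρ.g0 s a).2.and (eventually_gt_atTop s)).mono fun t h i => ⟨ρ.old (by
            have := ρ.M_le h.2; have := (ρ.m3 s).2; omega), fun _ =>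
          ρ.desc (fun s => ρ.Q_step) (h.1 (i.trans b.symm)) fun u i => by
            have : ρ.δ s ≤ (3 / 4) ^ n := d ▸ div_le_self (by positivity) (one_le_pow₀ one_le_two)
            linarith [ρ.Q_self s u i]⟩⟩
    refine ⟨T, fun x => ?_⟩
    by_cases h : ∃ e, ρ.T e x
    swap
    · exact ⟨c 0, fun t _ => ρ.old (Nat.zero_le _), fun u _ k => (h ⟨_, (ρ.inv u).2.supp k⟩).elim⟩
    obtain ⟨e, h⟩ := h
    have f : ∀ t ≥ T, (ρ.m t).B (y e) = 0 := fun t ht => not_not.1 fun k =>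
      k (ρ.t2 _ _ _ ((ρ.inv t).2.supp k) (a e) ▸ (b t ht).1)
    refine ⟨y e, f, fun u hu k => ?_⟩
    obtain rfl := ρ.t2 _ _ _ ((ρ.inv u).2.supp k) h
    have v := (ρ.supp k).1
    have := (b u hu).2 v u le_rfl
    have g := DD_le (m := ρ.m) u x (y u.unpair.1)
    rw [f u hu, sub_zero, abs_of_nonneg (B_le _ (ρ.H_pos u) _).1] at g
    have p := ρ.pm u
    constructor <;> linarith [(B_le _ (ρ.H_pos u) x).2, (ρ.mv1 v).2.2.1, (ρ.supp' k).2, ρ.η_le u, ρ.δ_pos u,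
      (ρ.near (ρ.m5 u (ρ.TA u)).1).2, p.tri x (c (ρ.C u)) (y u.unpair.1), p.symm (c (ρ.C u)) (c (ρ.A u)),
      p.tri (c (ρ.C u)) (c (ρ.A u)) (y u.unpair.1)])
  exact ⟨N, _, a, h, pres_lim hc.1.1 h b (DD_cr ρ.c1) fun t i j hi hj => DD_fix ρ.l_pos (ρ.H_pos t) (ρ.K t)
    (ρ.old (by have := (ρ.m3 t).2; omega)) (ρ.old (by have := (ρ.m3 t).2; omega)), b⟩

theorem wl0 {t i : ℕ} (h : i ≤ ρ.M t) : wl c (ρ.wa t) (c i) = 0 := by
  rw [ρ.m2]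
  split_ifs with k
  · exact max_eq_right (by linarith [ρ.m6 t k.2 i h, (dy_anti t.unpair.1.zero_le).trans_eq (by simp [dy] : dy 1 0 = 1)])
  · simp [wl, ts, dy]

theorem n1 [CompleteSpace X] [Fact (Pres c)] : ∃ (N : Type) (_ : MetricSpace N), CompleteSpace N ∧
    ∃ h : X ≃ₜ N, Pres (h ∘ c) ∧ ∀ x y, dist x y ≤ dist (h x) (h y) ∧
      ∀ t, |wl c (ρ.wa t) x - wl c (ρ.wa t) y| ≤ dist (h x) (h y) := by
  refine walls ρ.c2 (fun t i h => ρ.wl0 (by have := (ρ.m3 t).2; omega)) fun ε hε => ?_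
  obtain ⟨K, k⟩ := dy_small hε
  obtain ⟨y, -, b⟩ := unif (S := fun _ _ => True) (Φ := fun (_ : Unit) t => dy (ρ.wa t).1.1 (ρ.wa t).1.2 ≤ ε) K
    (fun e h => ⟨(), trivial, fun t a => by
      rw [ρ.m2]
      split_ifs
      exacts [(dy_anti (a ▸ h)).trans k.le, by simp [dy, hε.le]]⟩)
    fun e => ⟨(), trivial, (ρ.dich e 2).elim (fun h => h.mono fun t h a => by simp [ρ.m2, h a, dy, hε.le])
      fun ⟨s, a, b, d⟩ => (ρ.g0 s a).2.mono fun t h i => by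
        have := ρ.desc (Φ := fun t => 2 ≤ ρ.lev t) (fun s h k => by have := (ρ.r1 s h).2.2.2.1; omega)
          (h (i.trans b.symm)) d.ge
        rw [ρ.m2, if_neg (by omega)]
        simp [dy, hε.le]⟩
  exact eventually_atTop.2 b

include ρ in
theorem win [CompleteSpace X] [hc : Fact (Pres c)] : ∃ (N N' : Type) (_ : MetricSpace N) (_ : MetricSpace N')
    (a : ℕ → N) (b : ℕ → N'), CompleteSpace N ∧ CompleteSpace N' ∧ Pres a ∧ Pres b ∧ Nonempty (N ≃ₜ X) ∧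
      Nonempty (N' ≃ₜ X) ∧ ∀ φ : N ≃ₜ N', ¬ CompIn Y a b φ := by
  obtain ⟨N, _, a1, h, a2, a3⟩ := ρ.n2
  obtain ⟨N', _, b1, h', b2, b3⟩ := ρ.n1
  refine ⟨N, N', _, _, _, _, a1, b1, a2, b2, ⟨h.symm⟩, ⟨h'.symm⟩, fun φ hφ => ?_⟩
  obtain ⟨e, o1, o2⟩ := hφ.out a2.1
  let ψ := φ.trans h'.symm
  have o3 : ∀ a u k j, Out Y e a u k j → ∀ x, dist (h (c a)) x ≤ dy 1 u → dist (c j) (ψ x) ≤ dy 1 k ∧
      ∀ t, |wl c (ρ.wa t) (c j) - wl c (ρ.wa t) (ψ x)| ≤ dy 1 k := fun a u k j o x hx => by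
    have : dist (h' (c j)) (h' (ψ x)) ≤ dy 1 k := by simpa [ψ, dy] using o2 a u k j o x (by simpa [dy] using hx)
    exact ⟨(b3 _ _).1.trans this, fun t => ((b3 _ _).2 t).trans this⟩
  have o4 : ∀ a u k j, Out Y e a u k j → dist (c j) (ψ (h (c a))) ≤ dy 1 k := fun a u k j o =>
    (o3 a u k j o _ (by simp [dy])).1
  have lim : ∀ {x y r} s, (∀ t > s, DD ρ.m t x y ≤ r) → dist (h x) (h y) ≤ r := fun s k =>
    le_of_tendsto (a3 _ _) ((eventually_gt_atTop s).mono k)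
  obtain ⟨s0, c1, rfl, c3⟩ := (ρ.s0 e).resolve_right fun k => (o1 _ _).elim fun u ⟨j, o⟩ => k.1 u j o
  obtain ⟨s1, d1, d2, d3⟩ := (ρ.s1 s0 c1).resolve_right fun k => by
    have : ψ (h (c (ρ.A s0))) ≠ ψ (h (c (ρ.C s0))) := fun e => by
      have := (ρ.m5 s0 (ρ.TA s0)).2.2 (ρ.A s0) (by have := (ρ.m3 s0).2; omega)
      rw [h.injective (ψ.injective e)] at this
      norm_num at this
    obtain ⟨K, f⟩ := dy_small (show 0 < dist _ _ / 6 from div_pos (dist_pos.2 this) (by norm_num))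
    obtain ⟨u, j, o⟩ := o1 (ρ.C s0) K
    obtain ⟨u', j', o'⟩ := o1 (ρ.A s0) K
    refine (k.2 u K j o).1 c3 u' j' o' ?_
    have : dy 4 K = 4 * dy 1 K := by simp [dy, div_eq_mul_inv]
    rw [dd, dist_comm]
    linarith [o4 _ _ _ _ o, o4 _ _ _ _ o', dist_triangle4 (ψ (h (c (ρ.A s0)))) (c j') (c j) (ψ (h (c (ρ.C s0)))),
      dist_comm (c j') (ψ (h (c (ρ.A s0))))]
  obtain ⟨d4, d5, -, d6, -⟩ := ρ.r1 s1 d2
  rw [d3] at d4 d5 d6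
  have δ0 : 8 * ρ.δ s0 ≤ dy 1 (ρ.u s0) := by
    have := dy_anti (show ρ.u s0 + 3 ≤ ρ.g s0 by have := (ρ.r0 s0 c3).2.2; omega)
    have := (ρ.η_le s0).2.1
    simp only [dy, pow_add] at *
    linarith [(by ring : ((1 : ℕ) : ℝ) / 2 ^ ρ.u s0 = 8 * ((1 : ℕ) / (2 ^ ρ.u s0 * 2 ^ 3)))]
  obtain ⟨r, er⟩ : ∃ r, r = dy (ρ.n s1) (ρ.h s1) := ⟨_, rfl⟩
  have wall : ∀ x, dist (h (c (ρ.A s0))) x ≤ dy 1 (ρ.u s0) → dist (ψ x) (c (ρ.p s1)) ≠ r := fun x hx k => by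
    have := (o3 _ _ _ _ (ρ.g1 s0 c1 c3) x hx).2 s1
    rw [ρ.wl0 (le_add_self.trans (ρ.M_le d4)), ρ.m2, if_pos ⟨(ρ.g0 s1 d1).1, by omega⟩] at this
    simp only [wl, k, er, sub_self, abs_zero, mul_zero, ts, sub_zero, zero_sub, abs_neg, ← d5, dy, pow_succ] at this
    rw [max_eq_left (by positivity), abs_of_pos (by positivity), div_le_div_iff_of_pos_left (by simp)
      (by positivity) (by positivity)] at this
    linarith [pow_pos (two_pos (α := ℝ)) s0.unpair.1]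
  let I : ℕ → Prop := fun s => ρ.Good s ∧ ρ.lev s ≠ 0 ∧ s.unpair.1 = s0.unpair.1 ∧ ρ.p s = ρ.p s1 ∧
    dy (ρ.n s) (ρ.h s) = r ∧ ρ.Q (c (ρ.A s0)) (3 * ρ.δ s0) s ∧ dist (ψ (h (c (ρ.A s)))) (c (ρ.p s1)) < r ∧
      ∀ x, dist (h (c (ρ.B s))) x ≤ dy 1 (ρ.w s) → r < dist (ψ x) (c (ρ.p s1))
  have out : ∀ s, ρ.Good s → ρ.lev s ≠ 0 → s.unpair.1 = s0.unpair.1 → ¬ ρ.bt s → ∀ x,
      dist (h (c (ρ.B s))) x ≤ dy 1 (ρ.w s) → dy (ρ.n s) (ρ.h s) < dist (ψ x) (c (ρ.p s)) :=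
    fun s a b d f x hx => by
      obtain ⟨k, x1, x2⟩ := ρ.g3 s a b
      obtain ⟨-, -, x3, x4⟩ := (ρ.r1 s b).2.2.2.2.2.1.resolve_left fun k => f k.1
      rw [d, ← x3, ← x4] at x1
      rw [dd] at x2
      linarith [(o3 _ _ _ _ x1 x hx).1, (x2.resolve_left fun k => f k.1).2,
        dist_triangle (c (ρ.j s)) (ψ x) (c (ρ.p s))]
  have I1 : I s1 := by
    obtain ⟨x1, u, k, x2, x3⟩ := ρ.g2 s1 d1 (by omega)
    exact ⟨d1, d2, d5.symm, rfl, er.symm, ρ.Q_step d2 (d3 ▸ ρ.Q_self s0),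
      by linarith [o4 _ _ _ _ (d5 ▸ x2), dist_comm (c (ρ.p s1)) (ψ (h (c (ρ.A s1))))],
      er ▸ out s1 d1 d2 d5.symm x1⟩
  have I2 : ∀ s, I s → ∃ t, I t ∧ ρ.lev t ≠ 0 ∧ ρ.ps t = s := fun s ⟨x1, x2, x3, x4, x5, x6, x7, x8⟩ => by
    have f := fun t (k : s < t) => ρ.F1 (ρ.g0 s x1).1 k fun u _ => ρ.K u
    obtain ⟨t, y1, y2, rfl⟩ := (ρ.s1 s x1).resolve_right fun k => by
      have w := wall (h (c (ρ.C s))) (lim s fun t a => by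
        linarith [(f t a).1, x6 t a.le, ρ.δ_pos s, ρ.δ_pos s0, (ρ.pm t).symm (c (ρ.A s0)) (c (ρ.C s)),
          (ρ.pm t).tri (c (ρ.C s)) (c (ρ.A s)) (c (ρ.A s0))])
      obtain ⟨K, g⟩ := dy_small (half_pos (abs_pos.2 (sub_ne_zero.2 w)))
      obtain ⟨u, j, o⟩ := o1 (ρ.C s) K
      obtain ⟨k1, k2⟩ := (k.2 u K j (x3 ▸ o)).2 x2
      have o := o4 _ _ _ _ o
      rw [x4, x5, dd] at k1 k2
      rcases w.lt_or_gt with w | w
      · rw [abs_of_neg (sub_neg.2 w)] at g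
        refine k1 ⟨by linarith [dist_triangle (c j) (ψ (h (c (ρ.C s)))) (c (ρ.p s1))], lt_of_not_ge fun i =>
          w.not_gt (x8 _ ((lim s fun t a => ((ρ.pm t).symm _ _).trans_le (f t a).2).trans ?_))⟩
        calc 3 / 4 * ρ.δ s ≤ (3 / 4) ^ (ρ.lev s + 1) := by
              rw [pow_succ']; gcongr; exact div_le_self (by positivity) (one_le_pow₀ one_le_two)
          _ ≤ ((3 / 4) ^ 3) ^ ρ.w s := by rw [← pow_mul]; exact pow_le_pow_of_le_one (by norm_num) (by norm_num) i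
          _ ≤ (1 / 2) ^ ρ.w s := by gcongr; norm_num
          _ = _ := by simp [dy]
      · rw [abs_of_pos (sub_pos.2 w)] at g
        exact k2 (by linarith [dist_triangle_left (ψ (h (c (ρ.C s)))) (c (ρ.p s1)) (c j)])
    obtain ⟨-, z1, -, z2, -, z3, z4⟩ := ρ.r1 t y2
    obtain ⟨z4, z5, z6⟩ := z4 (by omega)
    have z7 : dy (ρ.n t) (ρ.h t) = r := by rw [z5, z6, x5]
    refine ⟨t, ⟨y1, y2, z1.symm.trans x3, z4.trans x4, z7, ρ.Q_step y2 x6, ?_⟩, y2, rfl⟩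
    rcases z3 with ⟨b, z8, z9, z⟩ | ⟨b, z8, -⟩
    · obtain ⟨k, o, i⟩ := ρ.g3 t y1 y2
      have := (i.resolve_right fun k => k.1 b).2.1
      rw [z4, x4, z7, dd] at this
      rw [z8, z9, z]
      exact ⟨by linarith [o4 _ _ _ _ (x3 ▸ z1 ▸ o), 
        dist_triangle_left (ψ (h (c (ρ.C (ρ.ps t))))) (c (ρ.p s1)) (c (ρ.j t))], x8⟩
    · exact ⟨z8 ▸ x7, z7 ▸ x4 ▸ z4 ▸ out t y1 y2 (z1.symm.trans x3) b⟩
  choose! nx I2 I3 I4 using I2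
  let q : ℕ → ℕ := fun i => nx^[i] s1
  have q1 : ∀ i, I (q i) ∧ ρ.δ (q i) = ρ.δ s1 * (3 / 4) ^ i := fun i => by
    induction i with
    | zero => exact ⟨I1, by simp [q]⟩
    | succ i ih =>
      simp only [q, Function.iterate_succ_apply']
      exact ⟨I2 _ ih.1, by rw [(ρ.up (I3 _ ih.1)).2, I4 _ ih.1, ih.2]; ring⟩
  obtain ⟨z, hz⟩ := cauchySeq_tendsto_of_complete (cauchySeq_of_le_geometric (f := fun i => h (c (ρ.A (q i))))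
    (3 / 4) (3 * ρ.δ s1) (by norm_num) fun i => lim (q (i + 1)) fun t a => by
      have := ρ.Q_step (I3 _ (q1 i).1) (ρ.Q_self _)
      rw [I4 _ (q1 i).1] at this
      have e : q (i + 1) = nx (q i) := Function.iterate_succ_apply' _ _ _
      rw [e] at a ⊢
      rw [(ρ.pm t).symm, mul_assoc, ← (q1 i).2]
      linarith [this t a.le, ρ.δ_pos (nx (q i))])
  have hz' : Tendsto (fun i => h (c (ρ.B (q i)))) atTop (𝓝 z) := hz.congr_dist (squeeze_zero (fun _ => dist_nonneg)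
    (fun i => (lim (q i) fun t a => ρ.F0 a.le fun u _ => ρ.K u).trans_eq (q1 i).2) (by
      simpa using (tendsto_pow_atTop_nhds_zero_of_lt_one (r := (3 / 4 : ℝ)) (by norm_num) (by norm_num)).const_mul _))
  refine wall z (le_of_tendsto' (tendsto_const_nhds.dist hz) fun i => lim (q i) fun t a => ?_) (le_antisymm
    (le_of_tendsto' (((ψ.continuous.tendsto z).comp hz).dist tendsto_const_nhds) fun i => (q1 i).1.2.2.2.2.2.2.1.le)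
    (ge_of_tendsto' (((ψ.continuous.tendsto z).comp hz').dist tendsto_const_nhds) fun i =>
      ((q1 i).1.2.2.2.2.2.2.2 _ (by simp [dy])).le))
  linarith [(q1 i).1.2.2.2.2.2.1 t a.le, ρ.δ_pos (q i), ρ.δ_pos s0, (ρ.pm t).symm (c (ρ.A s0)) (c (ρ.A (q i)))]

end Run

theorem caseP {X : Type} [MetricSpace X] [CompleteSpace X] {c : ℕ → X} (hc : Pres c) {Y : ℕ → Bool} (hY : Low Y)
    {o r : ℕ} (ho : ∀ x, dist x (c o) < dy 1 r → (𝓝[≠] x).NeBot) : ∃ (N N' : Type) (_ : MetricSpace N)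
    (_ : MetricSpace N') (a : ℕ → N) (b : ℕ → N'), CompleteSpace N ∧ CompleteSpace N' ∧ Pres a ∧ Pres b ∧
      Nonempty (N ≃ₜ X) ∧ Nonempty (N' ≃ₜ X) ∧ ∀ φ : N ≃ₜ N', ¬ CompIn Y a b φ :=
  have := Fact.mk hc
  (run_ex hY ho).elim fun ρ => ρ.win

end Pool.Agent.H.MP_fa5791_lc
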