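import Pool.Agent.H.MP_fa5791_lc.G

set_option autoImplicit false

/-! Spaces with dense isolated points. -/

namespace Pool.Agent.H.MP_fa5791_lc

open Pool.Agent.Lib.helper21.PR Filter Topology Function Set

attribute [local irreducible] Primrec Computable

variable {X : Type} [MetricSpace X]

theorem dy_succ (k : ℕ) : dy 1 k = 2 * dy 1 (k + 1) := by simp only [dy, pow_succ]; field_simp

theorem dy_pos (k : ℕ) : 0 < dy 1 k := by simp [dy]

theorem sb {S : Type} {e π : S → ℕ} (he : Injective e) (h1 : Surjective π) (h2 : Tendsto π cofinite cofinite)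
    {y : ℕ → X} (h3 : Injective y) (h4 : DenseRange y) (h5 : Dense {x : X | IsOpen {x}}) :
    ∃ ψ : S → X, Injective ψ ∧ range ψ = {x | IsOpen {x}} ∧ ∀ p, ∀ ε > 0, ∃ δ > 0, ∀ᶠ s in cofinite,
      dist (y (π s)) p < δ ∨ dist (ψ s) p < δ → dist (y (π s)) (ψ s) < ε := by
  have := Infinite.of_injective y h3
  let N : ℕ → X → Set X := fun k x => {z | k = 0 ∨ dist z x < dy 1 k}
  have n1 : ∀ k x, IsOpen (N k x) := fun k x => isOpen_const.union Metric.isOpen_ball
  have n2 : ∀ k x, (N k x).Infinite → (N k x ∩ {x | IsOpen {x}}).Infinite := fun k x h f =>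
    h (f.subset (f.isClosed.closure_eq ▸ h5.open_subset_closure_inter (n1 k x)))
  have n3 : ∀ k x p, ¬ IsOpen {p} → p ∈ N k x → (N k x).Infinite := fun k x p a b =>
    have : (𝓝[≠] p).NeBot := ⟨mt (isOpen_singleton_iff_punctured_nhds p).2 a⟩
    infinite_of_mem_nhds p ((n1 k x).mem_nhds b)
  obtain ⟨l, el⟩ : ∃ l : X → ℕ, ∀ x, l x = sInf {k | (N (k + 1) x).Finite} := ⟨_, fun _ => rfl⟩
  have l1 : ∀ x, (N (l x) x).Infinite := fun x => by
    rcases h : l x with _ | k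
    · exact infinite_univ.mono fun _ _ => .inl rfl
    · exact Nat.notMem_of_lt_sInf (s := {k | (N (k + 1) x).Finite}) (by rw [← el, h]; simp)
  have l2 : ∀ x, IsOpen {x} → (N (l x + 1) x).Finite := fun x h => by
    obtain ⟨ε, a, b⟩ := Metric.isOpen_iff.1 h x rfl
    obtain ⟨K, d⟩ := dy_small a
    exact el x ▸ Nat.sInf_mem (s := {k | (N (k + 1) x).Finite}) ⟨K, (finite_singleton x).subset fun z h =>
      b ((h.resolve_left (by simp)).trans ((dy_anti K.le_succ).trans_lt d))⟩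
  let F : X → Prop := fun x => ({w | IsOpen {w} ∧ l w = l x} ∩ N (l x - 2) x).Finite
  let R : ℕ → X → Prop := fun m z => ¬ IsOpen {y m} ∧ z ∈ N m (y m) ∨ IsOpen {y m} ∧
    (l z = l (y m) ∧ z ∈ N (l (y m) - 2) (y m) ∨ z ∈ N (l (y m)) (y m) ∧ F (y m))
  have i1 : ∀ x, IsOpen {x} → x ∈ range y := fun x h => by
    obtain ⟨m, k⟩ := h4.exists_mem_open h (singleton_nonempty x)
    exact ⟨m, k⟩
  have r1 : ∀ m, {z | IsOpen {z} ∧ R m z}.Infinite := fun m => by
    by_cases a : IsOpen {y m}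
    · by_cases b : F (y m)
      · exact (n2 _ _ (l1 _)).mono fun z h => ⟨h.2, .inr ⟨a, .inr ⟨h.1, b⟩⟩⟩
      · exact Set.Infinite.mono (fun z h => ⟨h.1.1, .inr ⟨a, .inl ⟨h.1.2, h.2⟩⟩⟩) b
    · exact (n2 _ _ (n3 m _ _ a (.inr (by simp [dy])))).mono fun z h => ⟨h.2, .inl ⟨a, h.1⟩⟩
  obtain ⟨φ, f1, f2⟩ := extraction_forall_of_frequently (P := fun n k => ∀ s, e s = n →
    IsOpen {y k} ∧ R (π s) (y k)) fun n => by
      by_cases a : ∃ s, e s = n
      · obtain ⟨s, rfl⟩ := a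
        exact Nat.frequently_atTop_iff_infinite.2 (((r1 (π s)).preimage fun z h => i1 z h.1).mono
          fun k h t b => he b ▸ h)
      · exact .of_forall fun k s b => (a ⟨s, b⟩).elim
  choose g g1 using fun x : {x : X | IsOpen {x}} => (h1.exists (p := (y · = x.1))).1 (i1 x x.2)
  obtain ⟨ψ, p1, p2⟩ := Function.Embedding.schroeder_bernstein_of_rel (f := fun s =>
    (⟨y (φ (e s)), (f2 _ s rfl).1⟩ : {x : X | IsOpen {x}})) (g := g)
    (fun s t h => he (f1.injective (h3 (congrArg Subtype.val h))))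
    (fun a b h => Subtype.ext (by rw [← g1, h, g1])) (fun s x => R (π s) x ∨ y (π s) = x)
    (fun s => .inl (f2 _ s rfl).2) fun x => .inr (g1 x)
  have p3 := Subtype.val_injective.comp p1.1
  refine ⟨_, p3, by rw [range_comp, p1.2.range_eq]; simp, fun p ε hε => ?_⟩
  have t := h3.tendsto_cofinite.comp h2
  by_cases a : IsOpen {p}
  · obtain ⟨δ, b, d⟩ := Metric.isOpen_iff.1 a p rfl
    exact ⟨δ, b, ((t.eventually (eventually_cofinite_ne p)).and (p3.tendsto_cofinite.eventually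
      (eventually_cofinite_ne p))).mono fun s h k => k.elim (fun k => (h.1 (d k)).elim) fun k => (h.2 (d k)).elim⟩
  obtain ⟨K, k⟩ := dy_small hε
  have b : ∀ z, IsOpen {z} → dist z p < dy 1 (K + 4) → K + 2 < l z := fun z h d => lt_of_not_ge fun f =>
    n3 _ _ p a (.inr ((dist_comm _ _).trans_lt (d.trans_le (dy_anti (by omega))))) (l2 z h)
  have d : ∀ i ≤ K + 2, {x | IsOpen {x} ∧ l x = i ∧ F x ∧ ∃ z ∈ N i x, dist z p < dy 1 (K + 4)}.Finite :=
    fun i hi => by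
      rcases eq_empty_or_nonempty {x | IsOpen {x} ∧ l x = i ∧ F x ∧ ∃ z ∈ N i x, dist z p < dy 1 (K + 4)} with
        h | ⟨x, -, rfl, x2, z, x3, x4⟩
      · exact h ▸ finite_empty
      refine x2.subset fun w ⟨w1, w2, _, u, w3, w4⟩ => ⟨⟨w1, w2⟩, or_iff_not_imp_left.2 fun h => ?_⟩
      obtain ⟨n, hn⟩ : ∃ n, l x = n + 2 := ⟨l x - 2, by omega⟩
      rw [hn] at w3 x3 hi ⊢
      linarith [w3.resolve_left (by simp), x3.resolve_left (by simp), dy_succ n, dy_succ (n + 1),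
        dy_anti (hi.trans (by omega : K + 2 ≤ K + 4)), dist_triangle4_right w x p p, dist_triangle_left w p u,
        dist_triangle_left x p z, dist_self p, (by simp : dy 1 (n + 2 - 2) = dy 1 n)]
  refine ⟨_, dy_pos (K + 4), ((h2.eventually (finite_Iic K).eventually_cofinite_notMem).and (t.eventually
    ((finite_Iic _).biUnion d).eventually_cofinite_notMem)).mono fun s h f => ?_⟩
  have j : ∀ n, K < n → (ψ s).1 ∈ N n (y (π s)) → dist (y (π s)) (ψ s) < ε := fun n i h =>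
    (dist_comm _ _).trans_lt ((h.resolve_left (by omega)).trans ((dy_anti i.le).trans_lt k))
  rcases p2 s with (q | ⟨q, r | r⟩) | q
  · exact j _ (not_le.1 h.1) q.2
  · exact j _ (by have := f.elim (b _ q) fun f => r.1 ▸ b _ (ψ s).2 f; omega) r.2
  · exact j _ (lt_of_not_ge fun i => h.2 (mem_biUnion (x := l (y (π s))) (i.trans le_self_add)
      ⟨q, rfl, r.2, _, r.1, f.resolve_left fun f => by have := b _ q f; omega⟩)) r.1
  · simpa [q] using hε

theorem emb [CompleteSpace X] {S : Type} {e π : S → ℕ} (he : Injective e) (h1 : Surjective π)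
    (h2 : Tendsto π cofinite cofinite) {y : ℕ → X} (h3 : Injective y) (h4 : DenseRange y)
    (h5 : Dense {x : X | IsOpen {x}}) {H : S → ℝ} (h6 : Tendsto H cofinite (𝓝 0)) (h7 : ∀ s, H s ≠ 0)
    (h8 : ∀ s t, π s = π t → H s = H t → s = t) : ∃ N : Set (X × ℝ), IsClosed N ∧ Nonempty (N ≃ₜ X) ∧
      ∃ b : S → N, DenseRange b ∧ (∀ s, (b s).1 = (y (π s), H s) ∧ IsOpen {b s}) ∧
        ∀ x : N, x.1.2 = 0 ∨ x ∈ range b := by
  obtain ⟨ψ, p1, p2, p3⟩ := sb he h1 h2 h3 h4 h5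
  obtain ⟨J, j1, j2⟩ : ∃ J : X → X × ℝ, (∀ s, J (ψ s) = (y (π s), H s)) ∧ ∀ x, x ∉ range ψ → J x = (x, 0) :=
    ⟨extend ψ _ fun x => (x, 0), p1.extend_apply _ _, fun x => extend_apply' _ _ x⟩
  have tr : ∀ P : X → Prop, (∀ᶠ s in cofinite, P (ψ s)) → (∀ x ∉ range ψ, P x) → ∀ᶠ x in cofinite, P x :=
    fun P a b => (Finite.image ψ a).subset fun x h => by
      obtain ⟨s, rfl⟩ := not_not.1 (mt (b x) h)
      exact ⟨s, h, rfl⟩
  have key : ∀ (F : Filter X) p, F ≤ cofinite → Tendsto (fun x => (J x).1) F (𝓝 p) ∨ Tendsto id F (𝓝 p) →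
      Tendsto (fun x => dist (J x).1 x) F (𝓝 0) := fun F p a b => Metric.tendsto_nhds.2 fun ε hε => by
    obtain ⟨δ, d, f⟩ := p3 p ε hε
    have := (tr (fun x => dist (J x).1 p < δ ∨ dist x p < δ → dist (J x).1 x < ε) (by simpa only [j1] using f)
      fun x h _ => by simpa [j2 x h] using hε).filter_mono a
    rcases b with b | b <;> filter_upwards [this, Metric.tendsto_nhds.1 b δ d] with x h k
    exacts [by simpa using h (.inl k), by simpa using h (.inr k)]
  have hc : Continuous J := continuous_iff_continuousAt.2 fun p => continuousAt_iff_punctured_nhds.2 (by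
    by_cases a : p ∈ range ψ
    · rw [p2] at a
      rw [(isOpen_singleton_iff_punctured_nhds p).1 a]
      exact tendsto_bot
    have b : Tendsto id (𝓝[≠] p) (𝓝 p) := tendsto_id'.2 nhdsWithin_le_nhds
    rw [j2 p a]
    refine (b.congr_dist ((key _ p (nhdsNE_le_cofinite p) (.inr b)).congr fun _ => dist_comm _ _)).prodMk_nhds
      (Tendsto.mono_left (Metric.tendsto_nhds.2 fun ε hε => tr _ ?_ fun x h => ?_) (nhdsNE_le_cofinite p))
    · simpa only [j1] using Metric.tendsto_nhds.1 h6 ε hε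
    · simpa [j2 x h] using hε)
  have hi : Injective J := fun x z h => by
    by_cases a : x ∈ range ψ <;> by_cases b : z ∈ range ψ
    · obtain ⟨s, rfl⟩ := a
      obtain ⟨t, rfl⟩ := b
      simp only [j1, Prod.mk.injEq] at h
      rw [h8 s t (h3 h.1) h.2]
    · obtain ⟨s, rfl⟩ := a
      simp [j1, j2 z b, h7] at h
    · obtain ⟨s, rfl⟩ := b
      simp [j1, j2 x a, (h7 s).symm] at h
    · simpa [j2 x a, j2 z b] using h
  have E := IsClosedEmbedding.of_continuous_injective_isClosedMap hc hi (IsProperMap.isClosedMap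
    (isProperMap_iff_ultrafilter_of_t2.2 ⟨hc, fun U q h => U.le_cofinite_or_eq_pure.elim (fun a =>
      have b := (continuous_fst.tendsto q).comp h
      ⟨q.1, tendsto_id'.1 (b.congr_dist (key _ _ a (.inl b)))⟩) fun ⟨a, k⟩ => ⟨a, k ▸ pure_le_nhds a⟩⟩))
  let f := E.isEmbedding.toHomeomorph
  refine ⟨range J, E.isClosed_range, ⟨f.symm⟩, f ∘ ψ, f.surjective.denseRange.comp (p2 ▸ h5 :
    Dense (range ψ)) f.continuous, fun s => ⟨j1 s, ?_⟩, ?_⟩
  · simpa using f.isOpenMap _ (p2.le ⟨s, rfl⟩)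
  · rintro ⟨_, x, rfl⟩
    by_cases a : x ∈ range ψ
    · exact .inr (a.imp fun s h => Subtype.ext (congrArg J h))
    · exact .inl (by simp [j2 x a])

theorem inj_list [Infinite X] {c : ℕ → X} [h : Fact (Pres c)] :
    ∃ f : ℕ → ℕ, CI O f ∧ Injective (c ∘ f) ∧ DenseRange (c ∘ f) := by
  obtain ⟨g, a, b⟩ := RI.choice (Y := O) (R := fun (z : ℕ × List ℕ) (t : ℕ) =>
    (∀ i < z.2.length, dy 0 0 < dd c (z.2.getD i 0) t) ∧ (dd c t z.1.unpair.1 < dy 1 z.1 ∨
      ∃ i, i < z.2.length ∧ dd c (z.2.getD i 0) z.1.unpair.1 < dy 1 z.1)) (by fun_prop) fun ⟨m, l⟩ => by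
      by_cases k : ∃ i, i < l.length ∧ c (l.getD i 0) = c m.unpair.1
      · have f := (finite_Iio l.length).image fun i => c (l.getD i 0)
        obtain ⟨t, ht⟩ := h.1.1.exists_mem_open f.isClosed.isOpen_compl f.infinite_compl.nonempty
        exact ⟨t, fun i hi => by simpa [dy, dd] using fun e => ht ⟨i, hi, e⟩,
          .inr (k.imp fun i k => ⟨k.1, by simp only [dd, k.2, dist_self, dy_pos]⟩)⟩
      · exact ⟨_, fun i hi => by simpa [dy, dd] using fun e => k ⟨i, hi, e⟩, .inl (by simp [dd, dy_pos])⟩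
  obtain ⟨f, d, e⟩ := ci_cov (f := fun m l => g (m, l)) a
  have b := fun m => b (m, (List.range m).map f)
  simp only [← e, List.length_map, List.length_range] at b
  refine ⟨f, d, Function.Injective.of_lt_imp_ne fun i m k => by simpa [dy, dd, k] using (b m).1 i k,
    Metric.denseRange_iff.2 fun x r hr => ?_⟩
  obtain ⟨i, hi⟩ := h.1.1.exists_dist_lt x (half_pos hr)
  obtain ⟨K, k⟩ := dy_small (half_pos hr)
  obtain ⟨t, ht⟩ : ∃ t, dd c (f t) i < dy 1 (Nat.pair i K) := (b (Nat.pair i K)).2.elim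
    (fun h => ⟨_, by simpa using h⟩) fun ⟨t, a, h⟩ => ⟨t, by simpa [a] using h⟩
  exact ⟨t, (dist_triangle_right _ _ (c i)).trans_lt ((add_lt_add hi (ht.trans ((dy_anti
    (Nat.right_le_pair i K)).trans_lt k))).trans_eq (add_halves r))⟩

theorem twin [CompleteSpace X] [Infinite X] {c : ℕ → X} [h : Fact (Pres c)] (h5 : Dense {x : X | IsOpen {x}})
    {F : ℕ → ℕ → Prop} (h1 : CI O fun z : ℕ × ℕ => cd (F z.1 z.2)) (h2 : ∀ m t u, F m t → F m u → t = u)
    (h3 : ∀ m, ¬ F m 0) : ∃ (N : Type) (_ : MetricSpace N) (b : ℕ → N), CompleteSpace N ∧ Pres b ∧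
      Nonempty (N ≃ₜ X) ∧ (∀ n, IsOpen {b n}) ∧ (∀ n n', b n = b n' → n.unpair.1 = n'.unpair.1) ∧
      (∀ m t, F m t → b (Nat.pair m 0) ≠ b (Nat.pair m t) ∧ dist (b (Nat.pair m 0)) (b (Nat.pair m t)) ≤ dy 1 t) ∧
      ((∀ m t, ¬ F m t) → ∀ n x, dist (b n) x < dy 1 (n.unpair.1 + 1) → x = b n) := by
  classical
  obtain ⟨f, a1, a2, a3⟩ := inj_list (c := c)
  let H : ℕ × ℕ → ℝ := fun z => dy 1 z.1 + dy (min z.2 1) (z.1 + z.2 + 1)
  have H1 : ∀ m, H (m, 0) = dy 1 m := by simp [H, dy]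
  have H2 : ∀ m t, t ≠ 0 → H (m, t) = dy 1 m + dy 1 (m + t + 1) := fun m t k => by
    simp only [H, min_eq_right (Nat.one_le_iff_ne_zero.2 k)]
  have H3 : ∀ z, 0 < H z ∧ H z ≤ 2 * dy 1 z.1 := fun ⟨m, t⟩ => by
    have := dy_pos m
    by_cases k : t = 0
    · rw [k, H1]; constructor <;> linarith
    · rw [H2 _ _ k]; constructor <;> linarith [dy_pos (m + t + 1), dy_anti (show m ≤ m + t + 1 by omega)]
  have t : Tendsto (fun s : {z : ℕ × ℕ // z.2 = 0 ∨ F z.1 z.2} => s.1.1) cofinite cofinite :=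
    .cofinite_of_finite_preimage_singleton fun m => (((Set.Subsingleton.finite (s := {t | F m t})
      fun t a u b => h2 m t u a b).insert 0).image (Prod.mk m)).preimage Subtype.val_injective.injOn |>.subset
        fun s k => ⟨s.1.2, s.2.imp_right fun a => k ▸ a, Prod.ext k.symm rfl⟩
  obtain ⟨N, n1, n2, b, b1, b2, b3⟩ := emb (Encodable.encode_injective.comp Subtype.val_injective)
    (fun m => ⟨⟨(m, 0), .inl rfl⟩, rfl⟩) t a2 a3 h5 (H := fun s => H s.1) (squeeze_zero (fun s => (H3 _).1.le)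
      (fun s => (H3 _).2) (by
        simpa [dy] using ((tendsto_pow_atTop_nhds_zero_of_lt_one (r := (1 / 2 : ℝ)) (by norm_num)
          (by norm_num)).comp (Nat.cofinite_eq_atTop ▸ t)).const_mul 2)) (fun s => (H3 _).1.ne') (by
      rintro ⟨⟨m, t⟩, a⟩ ⟨⟨m, u⟩, b⟩ rfl k
      have := fun t => dy_pos (m + t + 1)
      obtain rfl : t = u := by
        by_cases i : t = 0 <;> by_cases j : u = 0
        · omega
        · simp [i, H1, H2 _ _ j, (this u).ne'] at k
        · simp [j, H1, H2 _ _ i, (this t).ne'] at k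
        · exact h2 m t u (a.resolve_left i) (b.resolve_left j)
      rfl)
  let τ : ℕ → ℕ := fun n => if F n.unpair.1 n.unpair.2 then n.unpair.2 else 0
  have τ1 : CI O τ := ci_ite (ci_comp h1 (g := Nat.unpair) (by fun_prop)) (by fun_prop) (by fun_prop)
  let σ : ℕ → {z : ℕ × ℕ // z.2 = 0 ∨ F z.1 z.2} := fun n => ⟨(n.unpair.1, τ n), by
    by_cases k : F n.unpair.1 n.unpair.2 <;> simp [τ, k]⟩
  have e : ∀ s t, dist (b s) (b t) = max (dd c (f s.1.1) (f t.1.1)) |H s.1 - H t.1| := fun s t => by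
    rw [Subtype.dist_eq, (b2 s).1, (b2 t).1]; rfl
  refine ⟨N, _, b ∘ σ, n1.completeSpace_coe, pres_iff.2 ⟨?_, ?_⟩, n2, fun n => (b2 _).2, fun n n' k => a2
    (congrArg Prod.fst ((b2 _).1.symm.trans ((congrArg Subtype.val k).trans (b2 _).1))), fun m t k => ?_,
    fun k n x d => ?_⟩
  · refine Dense.mono (Surjective.range_comp (f := σ) (fun ⟨⟨m, t⟩, k⟩ => ⟨Nat.pair m t, Subtype.ext ?_⟩) b).ge b1
    rcases k with (rfl : t = 0) | (k : F m t) <;> simp [σ, τ, *]
  · simp only [comp, e, σ, H]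
    fun_prop
  · have i : t ≠ 0 := fun i => h3 m (i ▸ k)
    have : dist ((b ∘ σ) (Nat.pair m 0)) ((b ∘ σ) (Nat.pair m t)) = dy 1 (m + t + 1) := by
      simp [e, σ, τ, k, H1, H2 _ _ i, dd, abs_of_pos (dy_pos _), (dy_pos _).le]
    exact ⟨dist_pos.1 (this ▸ dy_pos _), this ▸ dy_anti (by omega)⟩
  · have i : ∀ s : {z : ℕ × ℕ // z.2 = 0 ∨ F z.1 z.2}, s.1 = (s.1.1, 0) := fun s =>
      Prod.ext rfl (s.2.resolve_right (k _ _))
    have i' : ∀ s, (b s).1.2 = dy 1 s.1.1 := fun s => by rw [(b2 _).1, ← H1, ← i]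
    have j := (le_max_right _ _).trans_lt d
    rw [comp, i', Real.dist_eq, abs_lt] at j
    have := dy_succ n.unpair.1
    rcases b3 x with g | ⟨s, rfl⟩
    · linarith [j.2, dy_pos n.unpair.1]
    rw [i'] at j
    refine congrArg b (Subtype.ext ((i s).trans ((congrArg (·, 0) ?_).trans (i _).symm)))
    by_contra g
    rcases Nat.lt_or_gt_of_ne g with g | g <;>
      linarith [j.1, j.2, dy_anti (Nat.succ_le_of_lt g), dy_succ s.1.1, dy_pos n.unpair.1]

theorem caseI [CompleteSpace X] [Infinite X] {c : ℕ → X} (hc : Pres c) (h5 : Dense {x : X | IsOpen {x}})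
    {W : ℕ → Prop} (hW : RE W) : ∃ (N N' : Type) (_ : MetricSpace N) (_ : MetricSpace N') (a : ℕ → N)
      (b : ℕ → N'), CompleteSpace N ∧ CompleteSpace N' ∧ Pres a ∧ Pres b ∧ Nonempty (N ≃ₜ X) ∧
        Nonempty (N' ≃ₜ X) ∧ ∀ A (φ : N ≃ₜ N'), CompIn A a b φ → RI A fun n => ¬ W n := by
  classical
  have := Fact.mk hc
  obtain ⟨G, g1, g2, g3, g4⟩ := re_bool (r_pw hW).re
  let F : ℕ → ℕ → Prop := fun m t => t ≠ 0 ∧ G m (t - 1) = true ∧ ∀ u < t - 1, G m u ≠ true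
  have f : Primrec fun z : ℕ × ℕ => cd (F z.1 z.2) := by unfold F; fun_prop
  obtain ⟨N, _, a, a1, a2, a3, a4, -, a5, -⟩ := twin (c := c) h5 (ci_prim f) (fun m t u a b => by
    have := mt (b.2.2 _) (not_not.2 a.2.1)
    have := mt (a.2.2 _) (not_not.2 b.2.1)
    have := a.1
    have := b.1
    omega) fun _ k => k.1 rfl
  obtain ⟨N', _, b, b1, b2, b3, -, b4, -, b5⟩ := twin (c := c) h5 (F := fun _ _ => False) (ci_const _)
    (fun _ _ _ => False.elim) fun _ => id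
  replace b5 := b5 fun _ _ => id
  refine ⟨N, N', _, _, a, b, a1, b1, a2, b2, a3, b3, fun A φ h => ?_⟩
  obtain ⟨e, o1, o2⟩ := h.out a2.1
  have := out_ri A
  have o3 : ∀ i u k j, Out A e i u k j → j.unpair.1 + 1 < k → ∀ x, dist (a i) x ≤ dy 1 u → φ x = b j :=
    fun i u k j o h x hx => b5 j _ ((o2 i u k j o x (by simpa [dy] using hx)).trans_lt (by
      simp only [dy, Nat.cast_one]; gcongr; simp))
  refine (RI.un (p := fun m => ∃ u k j, Out A e (Nat.pair m 0) u k j ∧ j.unpair.1 + 1 < k ∧ ∀ t < u, ¬ F m t)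
    (by fun_prop)).of_eq fun m => ⟨fun ⟨u, k, j, o, h, i⟩ w => ?_, fun w => ?_⟩
  · have w := g4 m w
    have t : F m (Nat.find w + 1) := ⟨by simp, Nat.find_spec w, fun u => Nat.find_min w⟩
    exact (a5 m _ t).1 (φ.injective ((o3 _ _ _ _ o h _ (by simp [dy])).trans (o3 _ _ _ _ o h _
      ((a5 m _ t).2.trans (dy_anti (not_lt.1 fun k => i _ k t)))).symm))
  · obtain ⟨i, hi⟩ := b2.1.exists_mem_open (φ.isOpenMap _ (a4 (Nat.pair m 0))) (by simp)
    obtain ⟨u, j, o⟩ := o1 (Nat.pair m 0) (i.unpair.1 + 2)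
    have := o2 _ _ _ _ o (a (Nat.pair m 0)) (by simp)
    rw [show φ (a (Nat.pair m 0)) = b i by simpa [eq_comm] using hi, dist_comm] at this
    exact ⟨u, _, j, o, by rw [b4 _ _ (b5 i _ (this.trans_lt (by simp only [dy, Nat.cast_one]; gcongr <;> simp)))]; simp,
      fun t _ k => w (g2 _ _ k.2.1)⟩

/-- the main dichotomy -/
theorem main [CompleteSpace X] [Infinite X] {c : ℕ → X} (hc : Pres c) {Y : ℕ → Bool} (hY : Low Y) :
    ∃ (N N' : Type) (_ : MetricSpace N) (_ : MetricSpace N') (a : ℕ → N) (b : ℕ → N'), CompleteSpace N ∧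
      CompleteSpace N' ∧ Pres a ∧ Pres b ∧ Nonempty (N ≃ₜ X) ∧ Nonempty (N' ≃ₜ X) ∧
        ∀ φ : N ≃ₜ N', ¬ CompIn Y a b φ := by
  by_cases h : Dense {x : X | IsOpen {x}}
  · obtain ⟨W, w1, w2⟩ := co_re
    obtain ⟨N, N', _, _, a, b, h1, h2, h3, h4, h5, h6, h7⟩ := caseI hc h w1
    exact ⟨N, N', _, _, a, b, h1, h2, h3, h4, h5, h6, fun φ k => w2 Y hY (h7 Y φ k)⟩
  obtain ⟨o, ho⟩ := hc.1.exists_mem_open isClosed_closure.isOpen_compl
    (nonempty_compl.2 (mt dense_iff_closure_eq.2 h))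
  obtain ⟨ε, a, b⟩ := Metric.isOpen_iff.1 isClosed_closure.isOpen_compl _ ho
  obtain ⟨r, d⟩ := dy_small a
  exact caseP hc hY (o := o) (r := r) fun x k => ⟨fun f => b (k.trans d)
    (subset_closure ((isOpen_singleton_iff_punctured_nhds x).2 f))⟩

end Pool.Agent.H.MP_fa5791_lc
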