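import Pool.Agent.H.MP_fa5791_lc.I

set_option autoImplicit false

/-! Categoricity of discrete spaces. -/

namespace Pool.Agent.H.MP_fa5791_lc

open Pool.Agent.Lib.helper21.PR Pool.Agent.Lib.helper21 Filter Topology Function Set Encodable

attribute [local irreducible] Primrec Computable

section
variable {X Z : Type} [MetricSpace X] [MetricSpace Z] {c : ℕ → X} {c' : ℕ → Z} {φ : X → Z}

theorem disc {A : ℕ → Bool} {T : ℕ → ℕ → ℕ → Prop} (h1 : RI A fun z : ℕ × ℕ × ℕ => T z.1 z.2.1 z.2.2)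
    (h2 : ∀ i r j, T i r j → ∀ x, dist (c i) x ≤ dy 1 r → φ x = c' j)
    (h3 : ∀ x, ∃ r, ∀ i, dist (c i) x ≤ dy 1 r → ∃ j, T i r j) : CompIn A c c' φ := by
  obtain ⟨g, a, b, d⟩ := MP_b6d12e_lc.part (Y := A) (R := fun u j => ∃ l : List ℕ, ∃ k : ℕ, u = encode (l, k) ∧
    ∃ n, n < l.length ∧ T (l.getD n 0) n j) (by fun_prop)
  refine ⟨g, a, fun x p h k => ⟨?_, fun n j e => ?_⟩⟩
  · obtain ⟨r, e⟩ := h3 x
    obtain ⟨j, e⟩ := e (p r) (by simpa [dy] using h r)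
    exact ⟨r + 1, d _ j ⟨_, _, rfl, r, by simp, by simpa using e⟩⟩
  · obtain ⟨l, k', e, m, f, i⟩ := b _ j e
    obtain ⟨rfl, -⟩ := Prod.mk.inj (encode_injective e)
    rw [List.length_map, List.length_range] at f
    rw [h2 (p m) m j (by simpa [f] using i) x (by simpa [dy] using h m), dist_self]
    positivity

theorem fin_cat [Finite X] [DiscreteTopology Z] (h : Pres c) (h' : DenseRange c') : CompIn O c c' φ := by
  have := Fact.mk h
  have := Fintype.ofFinite X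
  choose a a1 using denseRange_discrete.1 h.1
  choose b b1 using denseRange_discrete.1 h'
  obtain ⟨K, k⟩ := (eventually_all.2 fun z : X × X => (show ∀ᶠ K in atTop, dist z.1 z.2 < dy 1 K → z.1 = z.2 by
    by_cases e : z.1 = z.2
    · exact .of_forall fun _ _ => e
    · obtain ⟨K, k⟩ := dy_small (dist_pos.2 e)
      exact (eventually_ge_atTop K).mono fun n h f => absurd (f.trans_le (dy_anti h)) k.not_gt)).exists
  obtain ⟨L, e⟩ : ∃ L : List (ℕ × ℕ), ∀ z, z ∈ L ↔ ∃ x, (a x, b (φ x)) = z :=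
    ⟨(Finset.univ.toList).map fun x => (a x, b (φ x)), by simp⟩
  refine disc (T := fun i r j => K < r ∧ ∃ m, (m, j) ∈ L ∧ dd c i m < dy 1 (K + 1)) (RI.un (by fun_prop))
    (fun i r j ⟨f, m, g, u⟩ x w => ?_) fun x => ⟨K + 2, fun i f => ⟨_, by omega, _, (e _).2 ⟨x, rfl⟩, ?_⟩⟩
  · obtain ⟨y, g⟩ := (e _).1 g
    obtain ⟨rfl, rfl⟩ := Prod.mk.inj g
    rw [dd, a1] at u
    rw [b1, show x = y from k (x, y)
      (by linarith [dist_triangle_left x y (c i), dy_succ K, dy_anti (Nat.succ_le_of_lt f)])]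
  · rw [dd, a1]; linarith [dy_succ (K + 1), dy_pos (K + 2)]

theorem nat_cat [DiscreteTopology X] (h : Pres c) {f g : ℕ → ℕ} (h1 : CI O f) (h2 : CI O g)
    (h3 : Surjective (c ∘ f)) (h4 : ∀ m, φ (c (f m)) = c' (g m)) : CompIn (J O) c c' φ := by
  have := Fact.mk h
  have a := RI.jump (Y := O) (p := fun z : ℕ × ℕ => dy 0 0 < dd c z.1 (f z.2)) (RI.un (by fun_prop))
  have b := RI.jump (Y := O) (p := fun z : ℕ × ℕ => ∃ m, dy 0 0 < dd c z.1 (f m) ∧ dd c z.1 (f m) < dy 1 z.2)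
    (RI.un (by fun_prop))
  have d : CI (J O) g := h2.trans ci_O
  refine disc (T := fun i r j => ∃ m, j = g m ∧ ¬ dy 0 0 < dd c i (f m) ∧
    (0 < r ∧ ¬ ∃ m, dy 0 0 < dd c i (f m) ∧ dd c i (f m) < dy 1 (r - 1))) (RI.un (i_exists (i_and (by fun_prop)
      (i_and (i_ci (ci_not (ci_comp a (g := fun z : (ℕ × ℕ × ℕ) × ℕ => (z.1.1, z.2)) (by fun_prop))))
      (i_and (by fun_prop) (i_ci (ci_not (ci_comp b (g := fun z : (ℕ × ℕ × ℕ) × ℕ => (z.1.1, z.1.2.1 - 1))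
        (by fun_prop)))))))))
    (fun i r j ⟨m, e, k, u, v⟩ x w => ?_) fun x => ?_
  · obtain ⟨n, rfl⟩ := h3 x
    obtain ⟨r, rfl⟩ := Nat.exists_eq_add_one.2 u
    have : ¬ dy 0 0 < dd c i (f n) := fun s => v ⟨n, s, w.trans_lt (by
      linarith [dy_succ r, dy_pos r, (by simp : dy 1 (r + 1 - 1) = dy 1 r)])⟩
    simp only [dy, dd, Nat.cast_zero, zero_div, dist_pos, not_not] at k this
    rw [e, ← h4, ← k, this]; rfl
  · obtain ⟨ε, e, k⟩ := Metric.isOpen_iff.1 (isOpen_discrete {x}) x rfl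
    obtain ⟨K, u⟩ := dy_small e
    obtain ⟨n, rfl⟩ := h3 x
    refine ⟨K + 1, fun i v => ?_⟩
    have v : c i = c (f n) := k (v.trans_lt ((dy_anti K.le_succ).trans_lt u))
    refine ⟨_, n, rfl, by simp [dy, dd, v], by simp, fun ⟨m, s, t⟩ => ?_⟩
    rw [dd, v, dist_comm] at s t
    simp [dy, show c (f m) = c (f n) from k (t.trans u)] at s

end

/-- a computable metric space together with its completion -/
structure CMS where
  M : Type
  [m : MetricSpace M]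
  complete : CompleteSpace M
  c : ℕ → M
  pres : Pres c

attribute [instance] CMS.m

/-- `X` is a computable Polish space -/
def CPolish (X : Type) [TopologicalSpace X] : Prop := ∃ M : CMS, Nonempty (M.M ≃ₜ X)

/-- `X` is `A`-categorical; for `b = true` the inverse homeomorphism has to be `A`-computable too -/
def Cat (b : Bool) (A : ℕ → Bool) (X : Type) [TopologicalSpace X] : Prop := ∀ M N : CMS,
  Nonempty (M.M ≃ₜ X) → Nonempty (N.M ≃ₜ X) →
    ∃ f : M.M ≃ₜ N.M, CompIn A M.c N.c f ∧ (b = true → CompIn A N.c M.c f.symm)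

/-- the degree of `D` is the degree of categoricity of `X` -/
def IsDeg (b : Bool) (D : ℕ → Bool) (X : Type) [TopologicalSpace X] : Prop :=
  Cat b D X ∧ ∀ A, Cat b A X → TuringReducible (Fn.orc D) (Fn.orc A)

theorem main' {X : Type} [TopologicalSpace X] [Infinite X] (h : CPolish X) {Y : ℕ → Bool} (hY : Low Y) :
    ∃ M N : CMS, Nonempty (M.M ≃ₜ X) ∧ Nonempty (N.M ≃ₜ X) ∧ ∀ f : M.M ≃ₜ N.M, ¬ CompIn Y M.c N.c f := by
  obtain ⟨M, ⟨e⟩⟩ := h
  have := M.complete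
  have := e.toEquiv.infinite_iff.2 ‹_›
  obtain ⟨N, N', _, _, a, b, h1, h2, h3, h4, ⟨h5⟩, ⟨h6⟩, h7⟩ := main M.pres hY
  exact ⟨⟨N, h1, a, h3⟩, ⟨N', h2, b, h4⟩, ⟨h5.trans e⟩, ⟨h6.trans e⟩, h7⟩

end Pool.Agent.H.MP_fa5791_lc
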